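import Pool.Agent.BKR.Trans

/-! Cores of large bicliques and of copies of `H_{Δ-1}`; their components. -/

namespace BKR

open Finset

/-- `K` induces a complete digraph. -/
def IsBiclique {V : Type*} (A : V → V → Prop) (K : Finset V) : Prop :=
  ∀ u ∈ K, ∀ v ∈ K, u ≠ v → A u v

/-- The digraph contains `H_k`: a directed triangle `a → b → c → a` and a disjoint complete
digraph `K` on `k - 2` vertices, with all arcs in both directions between them. -/
def ContainsH {V : Type*} (A : V → V → Prop) (k : ℕ) : Prop :=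
  ∃ (a b c : V) (K : Finset V), a ≠ b ∧ b ≠ c ∧ c ≠ a ∧ a ∉ K ∧ b ∉ K ∧ c ∉ K ∧
    K.card = k - 2 ∧ IsBiclique A K ∧ A a b ∧ A b c ∧ A c a ∧
    ∀ y ∈ K, (A a y ∧ A y a) ∧ (A b y ∧ A y b) ∧ (A c y ∧ A y c)

set_option linter.unusedSectionVars false
set_option linter.unusedVariables false

variable {V : Type*} [Fintype V] [DecidableEq V]

open Classical in
/-- `v` together with the vertices joined to `v` by a digon. -/
noncomputable def nbhd (A : V → V → Prop) (v : V) : Finset V :=
  insert v (univ.filter (fun u => A v u ∧ A u v))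

open Classical in
/-- The vertices of `X` joined by digons to all other vertices of `X`. -/
noncomputable def core (A : V → V → Prop) (X : Finset V) : Finset V :=
  X.filter (fun v => ∀ u ∈ X, u ≠ v → A v u ∧ A u v)

theorem mem_core {A : V → V → Prop} {X : Finset V} {v : V} :
    v ∈ core A X ↔ v ∈ X ∧ ∀ u ∈ X, u ≠ v → A v u ∧ A u v := by
  simp [core]

theorem core_subset {A : V → V → Prop} {X : Finset V} : core A X ⊆ X := by
  intro v hv
  exact (mem_core.1 hv).1

theorem mem_nbhd {A : V → V → Prop} {v u : V} : u ∈ nbhd A v ↔ u = v ∨ (A v u ∧ A u v) := by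
  simp [nbhd]

theorem nbhd_card {A : V → V → Prop} {Δ : ℕ}
    (hout : ∀ v, {u | A v u}.ncard ≤ Δ ∨ {u | A u v}.ncard ≤ Δ) (v : V) :
    (nbhd A v).card ≤ Δ + 1 := by
  classical
  unfold nbhd
  refine (card_insert_le _ _).trans (Nat.succ_le_succ ?_)
  rcases hout v with h | h
  · rw [Set.ncard_eq_toFinset_card'] at h
    refine le_trans (card_le_card ?_) h
    intro u hu
    simp only [mem_filter, mem_univ, true_and] at hu
    simpa using hu.1
  · rw [Set.ncard_eq_toFinset_card'] at h
    refine le_trans (card_le_card ?_) h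
    intro u hu
    simp only [mem_filter, mem_univ, true_and] at hu
    simpa using hu.2

theorem subset_nbhd {A : V → V → Prop} {X : Finset V} {v : V} (hv : v ∈ core A X) :
    X ⊆ nbhd A v := by
  intro u hu
  rw [mem_nbhd]
  by_cases h : u = v
  · exact Or.inl h
  · exact Or.inr ((mem_core.1 hv).2 u hu h)

theorem core_subset_nbhd {A : V → V → Prop} {X : Finset V} {v : V} (hv : v ∈ X) :
    core A X ⊆ nbhd A v := by
  intro u hu
  rw [mem_nbhd]
  by_cases h : u = v
  · exact Or.inl h
  · exact Or.inr ((mem_core.1 hu).2 v hv (Ne.symm h)).symm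

theorem core_inter {A : V → V → Prop} {X Y : Finset V} :
    core A X ∩ core A Y ⊆ core A (X ∪ Y) := by
  intro v hv
  rw [mem_inter, mem_core, mem_core] at hv
  obtain ⟨⟨h1, h2⟩, h3, h4⟩ := hv
  refine mem_core.2 ⟨mem_union_left _ h1, ?_⟩
  intro u hu huv
  rcases mem_union.1 hu with h | h
  · exact h2 u h huv
  · exact h4 u h huv

/-- The family: bicliques with `Δ - 1` vertices and vertex sets of copies of `H_{Δ-1}`. -/
def Fam (A : V → V → Prop) (Δ : ℕ) (X : Finset V) : Prop :=
  (IsBiclique A X ∧ X.card = Δ - 1) ∨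
  ∃ (a b c : V) (K : Finset V), a ≠ b ∧ b ≠ c ∧ c ≠ a ∧ a ∉ K ∧ b ∉ K ∧ c ∉ K ∧
    K.card = Δ - 1 - 2 ∧ IsBiclique A K ∧ A a b ∧ A b c ∧ A c a ∧
    (∀ y ∈ K, (A a y ∧ A y a) ∧ (A b y ∧ A y b) ∧ (A c y ∧ A y c)) ∧ X = {a, b, c} ∪ K

/-- The numerical consequences of membership in the family. -/
structure Num (A : V → V → Prop) (Δ : ℕ) (X : Finset V) : Prop where
  le : X.card ≤ Δ
  ge : Δ ≤ X.card + 1
  eq : X.card + 1 = Δ → core A X = X
  big : Δ ≤ (core A X).card + 3
  small : (core A X).card + 1 ≤ Δ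
  three : (X \ core A X).card ≤ 3
  nb : ¬ (X.card = Δ ∧ IsBiclique A (X \ core A X))

theorem core_eq_of_biclique {A : V → V → Prop} {X : Finset V} (h : IsBiclique A X) :
    core A X = X := by
  refine Subset.antisymm core_subset ?_
  intro v hv
  exact mem_core.2 ⟨hv, fun u hu huv => ⟨h v hv u hu (Ne.symm huv), h u hu v hv huv⟩⟩

theorem Fam.num {A : V → V → Prop} {Δ : ℕ} (hΔ : 10 ≤ Δ)
    (hω : ∀ K : Finset V, IsBiclique A K → K.card ≤ Δ - 1) {X : Finset V} (hX : Fam A Δ X) :
    Num A Δ X := by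
  rcases hX with ⟨h1, h2⟩ | ⟨a, b, c, K, hab, hbc, hca, haK, hbK, hcK, hK, hKb, h1, h2, h3, hy, rfl⟩
  · have hc := core_eq_of_biclique h1
    refine ⟨by omega, by omega, fun _ => hc, by rw [hc]; omega, by rw [hc]; omega, ?_, ?_⟩
    · rw [hc]; simp
    · rintro ⟨h, _⟩
      omega
  · have habc : ({a, b, c} : Finset V).card = 3 := by
      rw [card_insert_of_notMem (by simp [hab, hca.symm]), card_insert_of_notMem (by simp [hbc]),
        card_singleton]
    have hdis : Disjoint ({a, b, c} : Finset V) K := by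
      rw [Finset.disjoint_left]
      intro x hx
      simp only [mem_insert, mem_singleton] at hx
      rcases hx with rfl | rfl | rfl
      · exact haK
      · exact hbK
      · exact hcK
    have hcard : (({a, b, c} : Finset V) ∪ K).card = Δ := by
      rw [card_union_of_disjoint hdis, habc, hK]
      omega
    have hKc : K ⊆ core A ({a, b, c} ∪ K) := by
      intro y hyK
      refine mem_core.2 ⟨mem_union_right _ hyK, ?_⟩
      intro u hu huy
      rcases mem_union.1 hu with h | h
      · simp only [mem_insert, mem_singleton] at h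
        rcases h with rfl | rfl | rfl
        · exact ⟨(hy y hyK).1.2, (hy y hyK).1.1⟩
        · exact ⟨(hy y hyK).2.1.2, (hy y hyK).2.1.1⟩
        · exact ⟨(hy y hyK).2.2.2, (hy y hyK).2.2.1⟩
      · exact ⟨hKb y hyK u h (Ne.symm huy), hKb u h y hyK huy⟩
    have hbig := card_le_card hKc
    have hnb : ¬ IsBiclique A (({a, b, c} : Finset V) ∪ K) := by
      intro h
      have := hω _ h
      omega
    have hnb' : ¬ IsBiclique A ((({a, b, c} : Finset V) ∪ K) \ core A ({a, b, c} ∪ K)) := by
      intro h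
      apply hnb
      intro u hu v hv huv
      by_cases hu' : u ∈ core A ({a, b, c} ∪ K)
      · exact ((mem_core.1 hu').2 v hv (Ne.symm huv)).1
      · by_cases hv' : v ∈ core A ({a, b, c} ∪ K)
        · exact ((mem_core.1 hv').2 u hu huv).2
        · exact h u (mem_sdiff.2 ⟨hu, hu'⟩) v (mem_sdiff.2 ⟨hv, hv'⟩) huv
    have hsd := card_sdiff_add_card_eq_card (core_subset (A := A) (X := ({a, b, c} : Finset V) ∪ K))
    refine ⟨by omega, by omega, fun h => by omega, by omega, ?_, by omega, fun h => hnb' h.2⟩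
    by_contra hlt
    have h0 : ((({a, b, c} : Finset V) ∪ K) \ core A ({a, b, c} ∪ K)).card = 0 := by omega
    rw [card_eq_zero] at h0
    apply hnb'
    rw [h0]
    intro u hu
    simp at hu

section

variable {A : V → V → Prop} {Δ : ℕ}

theorem union_card (hout : ∀ v, {u | A v u}.ncard ≤ Δ ∨ {u | A u v}.ncard ≤ Δ) {X Y : Finset V} {v : V}
    (hX : v ∈ core A X) (hY : v ∈ core A Y) : (X ∪ Y).card ≤ Δ + 1 :=
  (card_le_card (union_subset (subset_nbhd hX) (subset_nbhd hY))).trans (nbhd_card hout v)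

theorem union3_card (hout : ∀ v, {u | A v u}.ncard ≤ Δ ∨ {u | A u v}.ncard ≤ Δ) {X Y Z : Finset V} {v : V}
    (hX : v ∈ core A X) (hY : v ∈ core A Y) (hZ : v ∈ core A Z) : (X ∪ Y ∪ Z).card ≤ Δ + 1 :=
  (card_le_card (union_subset (union_subset (subset_nbhd hX) (subset_nbhd hY))
    (subset_nbhd hZ))).trans (nbhd_card hout v)

theorem inter_card_BB (hout : ∀ v, {u | A v u}.ncard ≤ Δ ∨ {u | A u v}.ncard ≤ Δ) {X Y : Finset V}
    (hX : Num A Δ X) (hY : Num A Δ Y) (h : (core A X ∩ core A Y).Nonempty) :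
    X.card + Y.card ≤ (X ∩ Y).card + (Δ + 1) := by
  obtain ⟨v, hv⟩ := h
  rw [mem_inter] at hv
  have h1 := union_card hout hv.1 hv.2
  have h2 := card_union_add_card_inter X Y
  omega

/-- The mixed case: `X` is a biclique. -/
theorem inter_card_BH (hout : ∀ v, {u | A v u}.ncard ≤ Δ ∨ {u | A u v}.ncard ≤ Δ) {X Y : Finset V}
    (hX : Num A Δ X) (hY : Num A Δ Y) (h : (core A X ∩ core A Y).Nonempty)
    (hXc : X.card + 1 = Δ) (hYc : Y.card = Δ) : Δ ≤ (core A X ∩ core A Y).card + 5 := by
  have h1 := inter_card_BB hout hX hY h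
  have hcX := hX.eq hXc
  have hXb : IsBiclique A X := by
    intro u hu v hv huv
    rw [← hcX] at hu
    exact ((mem_core.1 hu).2 v hv (Ne.symm huv)).1
  have h2 : (X ∩ (Y \ core A Y)).card ≤ 3 := (card_le_card inter_subset_right).trans hY.three
  have h3 : X ∩ Y ⊆ (core A X ∩ core A Y) ∪ (X ∩ (Y \ core A Y)) := by
    intro v hv
    rw [mem_inter] at hv
    by_cases hvc : v ∈ core A Y
    · exact mem_union_left _ (mem_inter.2 ⟨by rw [hcX]; exact hv.1, hvc⟩)
    · exact mem_union_right _ (mem_inter.2 ⟨hv.1, mem_sdiff.2 ⟨hv.2, hvc⟩⟩)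
  have h4 := (card_le_card h3).trans (card_union_le _ _)
  omega

theorem inter_card_HH (hout : ∀ v, {u | A v u}.ncard ≤ Δ ∨ {u | A u v}.ncard ≤ Δ) {X Y : Finset V}
    (hX : Num A Δ X) (hY : Num A Δ Y) (h : (core A X ∩ core A Y).Nonempty)
    (hXc : X.card = Δ) (hYc : Y.card = Δ) : Δ ≤ (core A X ∩ core A Y).card + 5 := by
  have h1 := inter_card_BB hout hX hY h
  have h3 : X ∩ Y ⊆ (core A X ∩ core A Y) ∪ (((X ∩ Y) ∩ (X \ core A X)) ∪
      ((X ∩ Y) ∩ (Y \ core A Y))) := by
    intro v hv
    have hv' := mem_inter.1 hv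
    by_cases hvx : v ∈ core A X
    · by_cases hvy : v ∈ core A Y
      · exact mem_union_left _ (mem_inter.2 ⟨hvx, hvy⟩)
      · exact mem_union_right _ (mem_union_right _ (mem_inter.2 ⟨hv, mem_sdiff.2 ⟨hv'.2, hvy⟩⟩))
    · exact mem_union_right _ (mem_union_left _ (mem_inter.2 ⟨hv, mem_sdiff.2 ⟨hv'.1, hvx⟩⟩))
  have h4 := (card_le_card h3).trans (card_union_le _ _)
  have hXt := hX.three
  have hYt := hY.three
  have h5 : (((X ∩ Y) ∩ (X \ core A X)) ∪ ((X ∩ Y) ∩ (Y \ core A Y))).card ≤ 4 := by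
    by_cases ha : (X ∩ Y) ∩ (X \ core A X) ⊆ Y \ core A Y
    · have : ((X ∩ Y) ∩ (X \ core A X)) ∪ ((X ∩ Y) ∩ (Y \ core A Y)) ⊆ Y \ core A Y :=
        union_subset ha inter_subset_right
      have := card_le_card this
      omega
    · by_cases hb : (X ∩ Y) ∩ (Y \ core A Y) ⊆ X \ core A X
      · have : ((X ∩ Y) ∩ (X \ core A X)) ∪ ((X ∩ Y) ∩ (Y \ core A Y)) ⊆ X \ core A X :=
          union_subset inter_subset_right hb
        have := card_le_card this
        omega
      · rw [not_subset] at ha hb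
        obtain ⟨w, hw, hw'⟩ := ha
        obtain ⟨z, hz, hz'⟩ := hb
        rw [mem_inter, mem_inter, mem_sdiff] at hw hz
        have hwY : w ∈ core A Y := by
          by_contra h
          exact hw' (mem_sdiff.2 ⟨hw.1.2, h⟩)
        have hzX : z ∈ core A X := by
          by_contra h
          exact hz' (mem_sdiff.2 ⟨hz.1.1, h⟩)
        -- a vertex of `X \ core X` outside `Y`
        have key : ∀ {X Y : Finset V} {w : V}, w ∈ X → w ∉ core A X → w ∈ core A Y →
            ((X ∩ Y) ∩ (X \ core A X)).card < (X \ core A X).card := by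
          intro X Y w h1 h2 h3
          have : ∃ u ∈ X, u ≠ w ∧ ¬ (A w u ∧ A u w) := by
            by_contra hcon
            push Not at hcon
            exact h2 (mem_core.2 ⟨h1, fun u hu huw => hcon u hu huw⟩)
          obtain ⟨u, hu, huw, hn⟩ := this
          have huY : u ∉ Y := fun huY => hn ((mem_core.1 h3).2 u huY huw)
          have huX : u ∉ core A X := by
            intro huc
            obtain ⟨h5, h6⟩ := (mem_core.1 huc).2 w h1 (Ne.symm huw)
            exact hn ⟨h6, h5⟩
          refine card_lt_card ⟨inter_subset_right, fun hsub => ?_⟩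
          have := hsub (mem_sdiff.2 ⟨hu, huX⟩)
          rw [mem_inter, mem_inter] at this
          exact huY this.1.2
        have e1 := key hw.1.1 hw.2.2 hwY
        have e2 := key hz.1.2 hz.2.2 hzX
        rw [inter_comm Y X] at e2
        have := card_union_le ((X ∩ Y) ∩ (X \ core A X)) ((X ∩ Y) ∩ (Y \ core A Y))
        omega
  omega

theorem inter_card (hΔ : 10 ≤ Δ) (hout : ∀ v, {u | A v u}.ncard ≤ Δ ∨ {u | A u v}.ncard ≤ Δ) {X Y : Finset V}
    (hX : Num A Δ X) (hY : Num A Δ Y) (h : (core A X ∩ core A Y).Nonempty) :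
    Δ ≤ (core A X ∩ core A Y).card + 5 := by
  have hX1 := hX.le
  have hX2 := hX.ge
  have hY1 := hY.le
  have hY2 := hY.ge
  by_cases hXc : X.card = Δ
  · by_cases hYc : Y.card = Δ
    · exact inter_card_HH hout hX hY h hXc hYc
    · rw [inter_comm] at h ⊢
      exact inter_card_BH hout hY hX h (by omega) hXc
  · by_cases hYc : Y.card = Δ
    · exact inter_card_BH hout hX hY h (by omega) hYc
    · have h1 := inter_card_BB hout hX hY h
      rw [hX.eq (by omega), hY.eq (by omega)]
      omega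

theorem tri (hΔ : 10 ≤ Δ) (hout : ∀ v, {u | A v u}.ncard ≤ Δ ∨ {u | A u v}.ncard ≤ Δ) {X Y Z : Finset V}
    (hX : Num A Δ X) (hY : Num A Δ Y) (hZ : Num A Δ Z) (hXY : (core A X ∩ core A Y).Nonempty)
    (hXZ : (core A X ∩ core A Z).Nonempty) :
    ∃ v, v ∈ core A X ∧ v ∈ core A Y ∧ v ∈ core A Z := by
  have h1 := inter_card hΔ hout hX hY hXY
  have h2 := inter_card hΔ hout hX hZ hXZ
  have h3 := hX.small
  have h4 : ((core A X ∩ core A Y) ∪ (core A X ∩ core A Z)).card ≤ (core A X).card :=
    card_le_card (union_subset inter_subset_left inter_subset_left)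
  have h5 := card_union_add_card_inter (core A X ∩ core A Y) (core A X ∩ core A Z)
  obtain ⟨v, hv⟩ : ((core A X ∩ core A Y) ∩ (core A X ∩ core A Z)).Nonempty :=
    card_pos.1 (by omega)
  simp only [mem_inter] at hv
  exact ⟨v, hv.1.1, hv.1.2, hv.2.2⟩

theorem comp_bound (hΔ : 10 ≤ Δ) (hout : ∀ v, {u | A v u}.ncard ≤ Δ ∨ {u | A u v}.ncard ≤ Δ) {C : Finset (Finset V)}
    (hC : C.Nonempty) (hnum : ∀ X ∈ C, Num A Δ X)
    (hcl : ∀ X ∈ C, ∀ Y ∈ C, (core A X ∩ core A Y).Nonempty) :
    (C.biUnion id).card ≤ Δ + 1 ∧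
      16 ≤ (core A (C.biUnion id)).card * (4 - (Δ + 1 - (C.biUnion id).card)) := by
  obtain ⟨X0, hX0, hmax⟩ := exists_max_image C card hC
  have n0 := hnum X0 hX0
  have n0le := n0.le
  have n0ge := n0.ge
  have n0big := n0.big
  by_cases hi : ∀ X ∈ C, X ⊆ X0
  · have hW : C.biUnion id = X0 := by
      refine Subset.antisymm (biUnion_subset.2 hi) ?_
      exact subset_biUnion_of_mem id hX0
    rw [hW]
    refine ⟨by omega, ?_⟩
    by_cases h : X0.card = Δ
    · have : 4 - (Δ + 1 - X0.card) = 3 := by omega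
      rw [this]
      omega
    · have h2 : X0.card + 1 = Δ := by omega
      have : 4 - (Δ + 1 - X0.card) = 2 := by omega
      rw [this, n0.eq h2]
      omega
  · push Not at hi
    obtain ⟨X1, hX1, h01⟩ := hi
    have n1 := hnum X1 hX1
    have n1le := n1.le
    have n1ge := n1.ge
    have h01' : X0.card < (X0 ∪ X1).card := by
      refine card_lt_card ⟨subset_union_left, fun h => h01 (subset_union_right.trans h)⟩
    have hne01 := hcl X0 hX0 X1 hX1
    have i01 := inter_card hΔ hout n0 n1 hne01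
    have u01 : (X0 ∪ X1).card ≤ Δ + 1 := by
      obtain ⟨v, hv⟩ := hne01
      rw [mem_inter] at hv
      exact union_card hout hv.1 hv.2
    by_cases hii : ∀ X ∈ C, X ⊆ X0 ∪ X1
    · have hW : C.biUnion id = X0 ∪ X1 := by
        refine Subset.antisymm (biUnion_subset.2 hii) ?_
        exact union_subset (subset_biUnion_of_mem id hX0) (subset_biUnion_of_mem id hX1)
      rw [hW]
      refine ⟨u01, ?_⟩
      have hcore := card_le_card (core_inter (A := A) (X := X0) (Y := X1))
      by_cases h : (X0 ∪ X1).card = Δ + 1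
      · have : 4 - (Δ + 1 - (X0 ∪ X1).card) = 4 := by omega
        rw [this]
        omega
      · have hmax1 := hmax X1 hX1
        have h0 : X0.card + 1 = Δ := by omega
        have h1 : X1.card + 1 = Δ := by omega
        have h3 : 4 - (Δ + 1 - (X0 ∪ X1).card) = 3 := by omega
        rw [n0.eq h0, n1.eq h1] at hcore
        have h4 := card_union_add_card_inter X0 X1
        rw [h3]
        omega
    · push Not at hii
      obtain ⟨X2, hX2, h012⟩ := hii
      have n2 := hnum X2 hX2
      have h012' : (X0 ∪ X1).card < (X0 ∪ X1 ∪ X2).card := by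
        refine card_lt_card ⟨subset_union_left, fun h => h012 (subset_union_right.trans h)⟩
      have u012 : (X0 ∪ X1 ∪ X2).card ≤ Δ + 1 := by
        obtain ⟨v, hv0, hv1, hv2⟩ := tri hΔ hout n0 n1 n2 hne01 (hcl X0 hX0 X2 hX2)
        exact union3_card hout hv0 hv1 hv2
      have h0 : X0.card + 1 = Δ := by omega
      have hall : ∀ X ∈ C, X.card + 1 = Δ := by
        intro X hX
        have := hmax X hX
        have := (hnum X hX).ge
        omega
      have hcore : ∀ X ∈ C, core A X = X := fun X hX => (hnum X hX).eq (hall X hX)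
      have hint : ∀ X ∈ C, X0.card ≤ (X0 ∩ X).card + 2 := by
        intro X hX
        have h1 := inter_card_BB hout n0 (hnum X hX) (hcl X0 hX0 X hX)
        have h2 := hall X hX
        omega
      have hsd : ∀ X ∈ C, (X0 \ X).card ≤ 2 := by
        intro X hX
        have h1 := hint X hX
        have h2 := card_sdiff_add_card_inter X0 X
        omega
      have hX : ∀ X ∈ C, X ⊆ X0 ∪ X1 ∪ X2 := by
        intro X hX
        have hex : (X0 \ ((X0 \ X1) ∪ (X0 \ X2) ∪ (X0 \ X))).Nonempty := by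
          apply card_pos.1
          have e1 := le_card_sdiff ((X0 \ X1) ∪ (X0 \ X2) ∪ (X0 \ X)) X0
          have e2 := card_union_le ((X0 \ X1) ∪ (X0 \ X2)) (X0 \ X)
          have e3 := card_union_le (X0 \ X1) (X0 \ X2)
          have e4 := hsd X hX
          have e5 := hsd X1 hX1
          have e6 := hsd X2 hX2
          omega
        obtain ⟨v, hv⟩ := hex
        simp only [mem_sdiff, mem_union, not_or, not_and, not_not] at hv
        obtain ⟨hv0, ⟨hv1, hv2⟩, hv3⟩ := hv
        have hs : ∀ Y ∈ C, v ∈ Y → Y ⊆ nbhd A v := by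
          intro Y hY hvY
          rw [← hcore Y hY] at hvY
          exact subset_nbhd hvY
        have hs1 : X0 ∪ X1 ∪ X2 ⊆ nbhd A v :=
          union_subset (union_subset (hs X0 hX0 hv0) (hs X1 hX1 (hv1 hv0))) (hs X2 hX2 (hv2 hv0))
        have hs2 := eq_of_subset_of_card_le hs1 (by have := nbhd_card hout v; omega)
        rw [hs2]
        exact hs X hX (hv3 hv0)
      have hW : C.biUnion id = X0 ∪ X1 ∪ X2 := by
        refine Subset.antisymm (biUnion_subset.2 hX) ?_
        exact union_subset (union_subset (subset_biUnion_of_mem id hX0)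
          (subset_biUnion_of_mem id hX1)) (subset_biUnion_of_mem id hX2)
      rw [hW]
      refine ⟨u012, ?_⟩
      have h3 : 4 - (Δ + 1 - (X0 ∪ X1 ∪ X2).card) = 4 := by omega
      rw [h3]
      have hsub : X0 \ ((X0 \ X1) ∪ (X0 \ X2)) ⊆ core A (X0 ∪ X1 ∪ X2) := by
        intro v hv
        simp only [mem_sdiff, mem_union, not_or, not_and, not_not] at hv
        obtain ⟨hv0, hv1, hv2⟩ := hv
        refine core_inter (mem_inter.2 ⟨core_inter (mem_inter.2 ⟨?_, ?_⟩), ?_⟩)
        · rw [hcore X0 hX0]; exact hv0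
        · rw [hcore X1 hX1]; exact hv1 hv0
        · rw [hcore X2 hX2]; exact hv2 hv0
      have h5 := card_le_card hsub
      have e1 := le_card_sdiff ((X0 \ X1) ∪ (X0 \ X2)) X0
      have e3 := card_union_le (X0 \ X1) (X0 \ X2)
      have e5 := hsd X1 hX1
      have e6 := hsd X2 hX2
      omega

/-- A vertex in digons with all of a set containing a member of the family lies in that member. -/
theorem core_mem {X W : Finset V} (hΔ : 10 ≤ Δ)
    (hω : ∀ K : Finset V, IsBiclique A K → K.card ≤ Δ - 1) (hH : ¬ ContainsH A Δ)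
    (hX : Fam A Δ X) (hXW : X ⊆ W) {v : V} (hv : v ∈ core A W) : v ∈ core A X := by
  have hd := (mem_core.1 hv).2
  suffices hvX : v ∈ X from mem_core.2 ⟨hvX, fun u hu huv => hd u (hXW hu) huv⟩
  by_contra hvX
  have hne : ∀ u ∈ X, u ≠ v := fun u hu h => hvX (h ▸ hu)
  rcases hX with ⟨h1, h2⟩ | ⟨a, b, c, K, hab, hbc, hca, haK, hbK, hcK, hK, hKb, h1, h2, h3, hy, rfl⟩
  · have hb : IsBiclique A (insert v X) := by
      intro x hx y hy hxy
      rcases mem_insert.1 hx with hx' | hx'
      · rcases mem_insert.1 hy with hy' | hy'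
        · exact absurd (hx'.trans hy'.symm) hxy
        · rw [hx']
          exact (hd y (hXW hy') (hne y hy')).1
      · rcases mem_insert.1 hy with hy' | hy'
        · rw [hy']
          exact (hd x (hXW hx') (hne x hx')).2
        · exact h1 x hx' y hy' hxy
    have := hω _ hb
    rw [card_insert_of_notMem hvX] at this
    omega
  · have ha : a ∈ ({a, b, c} : Finset V) ∪ K := by simp
    have hb : b ∈ ({a, b, c} : Finset V) ∪ K := by simp
    have hc : c ∈ ({a, b, c} : Finset V) ∪ K := by simp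
    have hKs : ∀ y ∈ K, y ∈ ({a, b, c} : Finset V) ∪ K := fun y h => mem_union_right _ h
    have hvK : v ∉ K := fun h => hvX (hKs v h)
    refine hH ⟨a, b, c, insert v K, hab, hbc, hca, ?_, ?_, ?_, ?_, ?_, h1, h2, h3, ?_⟩
    · rw [mem_insert, not_or]; exact ⟨hne a ha, haK⟩
    · rw [mem_insert, not_or]; exact ⟨hne b hb, hbK⟩
    · rw [mem_insert, not_or]; exact ⟨hne c hc, hcK⟩
    · rw [card_insert_of_notMem hvK, hK]; omega
    · intro x hx z hz hxy
      rcases mem_insert.1 hx with hx' | hx'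
      · rcases mem_insert.1 hz with hz' | hz'
        · exact absurd (hx'.trans hz'.symm) hxy
        · rw [hx']
          exact (hd z (hXW (hKs z hz')) (hne z (hKs z hz'))).1
      · rcases mem_insert.1 hz with hz' | hz'
        · rw [hz']
          exact (hd x (hXW (hKs x hx')) (hne x (hKs x hx'))).2
        · exact hKb x hx' z hz' hxy
    · intro y hyK
      rcases mem_insert.1 hyK with rfl | hyK
      · have da := hd a (hXW ha) (hne a ha)
        have db := hd b (hXW hb) (hne b hb)
        have dc := hd c (hXW hc) (hne c hc)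
        exact ⟨⟨da.2, da.1⟩, ⟨db.2, db.1⟩, ⟨dc.2, dc.1⟩⟩
      · exact hy y hyK

end

end BKR
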