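import Pool.Agent.BKR.Main

/-! Critical induced subdigraphs and the reduction of the colouring statement. -/

set_option linter.unusedSectionVars false
set_option linter.unusedVariables false

namespace BKR

theorem Dicol.comap {V W : Type*} {A : V → V → Prop} {B : W → W → Prop} {k : ℕ}
    (h : Dicol A k) (f : W → V) (hAB : ∀ x y, B x y → A (f x) (f y)) : Dicol B k := by
  obtain ⟨φ, hφ⟩ := h
  refine ⟨fun w => φ (f w), fun i => ?_⟩
  exact (hφ i).comap f (fun x hx => hx) (fun x _ y _ hxy => hAB x y hxy)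

/-- Extension of a colouring to one more vertex. -/
theorem extend {V : Type*} [Fintype V] {A : V → V → Prop} {k : ℕ} {U : Set V} {v : V}
    (hv : v ∈ U) (N : V → Prop)
    (hins : ∀ T : Set V, AcyclicOn A T → (∀ u ∈ T, ¬ N u) → AcyclicOn A (insert v T))
    (hN : {u : ↥U | N u}.ncard < k) (h : Dicol (fun x y : ↥(U \ {v}) => A x y) k) :
    Dicol (fun x y : ↥U => A x y) k := by
  classical
  obtain ⟨φ, hφ⟩ := h
  -- a colour not used on the neighbours
  obtain ⟨i, hi⟩ : ∃ i : Fin k, ∀ u : ↥(U \ {v}), N u → φ u ≠ i := by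
    by_contra hcon
    push Not at hcon
    choose g hg1 hg2 using hcon
    have hinj : Function.Injective (fun i => (⟨(g i).1, (g i).2.1⟩ : ↥U)) := by
      intro i j hij
      have h1 : g i = g j := Subtype.ext (congrArg (fun z : ↥U => z.1) hij)
      rw [← hg2 i, ← hg2 j, h1]
    have h1 : ((fun i => (⟨(g i).1, (g i).2.1⟩ : ↥U)) '' Set.univ).ncard = k := by
      rw [Set.ncard_image_of_injective _ hinj]
      simp
    have h2 : ((fun i => (⟨(g i).1, (g i).2.1⟩ : ↥U)) '' Set.univ) ⊆ {u : ↥U | N u} := by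
      rintro _ ⟨i, -, rfl⟩
      exact hg1 i
    have h3 := Set.ncard_le_ncard h2 (Set.toFinite _)
    omega
  refine ⟨fun x => if h : x.1 = v then i else φ ⟨x.1, x.2, h⟩, fun j => ?_⟩
  have hcl : ∀ x : ↥U, (if h : x.1 = v then i else φ ⟨x.1, x.2, h⟩) = j →
      (x.1 = v ∧ j = i) ∨ x.1 ∈ (Subtype.val '' {w | φ w = j} : Set V) := by
    intro x hx
    by_cases hxv : x.1 = v
    · rw [dif_pos hxv] at hx
      exact Or.inl ⟨hxv, hx.symm⟩
    · rw [dif_neg hxv] at hx
      exact Or.inr ⟨⟨x.1, x.2, hxv⟩, hx, rfl⟩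
  by_cases hj : j = i
  · subst hj
    have h1 := hins _ (acyclicOn_image (hφ j)) (by
      rintro _ ⟨w, hw, rfl⟩ hNw
      exact hi w hNw hw)
    refine h1.comap Subtype.val (fun x hx => ?_) (fun x _ y _ hxy => hxy)
    rcases hcl x hx with h | h
    · exact Or.inl h.1
    · exact Or.inr h
  · refine (acyclicOn_image (hφ j)).comap Subtype.val (fun x hx => ?_) (fun x _ y _ hxy => hxy)
    rcases hcl x hx with h | h
    · exact absurd h.2 hj
    · exact h

/-- A digraph satisfying the hypotheses at level `Δ` that is not `(Δ-1)`-dicolourable contains a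
critical one at level `m`. -/
theorem critical {V : Type*} [Fintype V] {A : V → V → Prop} {m Δ : ℕ} (hm : 9 ≤ m) (hmΔ : m ≤ Δ)
    (hloop : ∀ v, ¬ A v v) (h : Hyp A Δ) (hcol : ¬ Dicol A (Δ - 1)) :
    ∃ U : Set V, Hyp (fun x y : ↥U => A x y) m ∧ ¬ Dicol (fun x y : ↥U => A x y) (m - 1) ∧
      (∀ U' : Set V, U' ⊂ U → Dicol (fun x y : ↥U' => A x y) (m - 1)) ∧
      ∀ v : ↥U, m - 1 ≤ {u : ↥U | A v u}.ncard ∧ m - 1 ≤ {u : ↥U | A u v}.ncard := by
  classical
  obtain ⟨n, rfl⟩ := Nat.exists_eq_add_of_le hmΔ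
  obtain ⟨U1, φ, hφ1, hφ2, hU1⟩ := iterate hm n A hloop h
  have hU1col : ¬ Dicol (fun x y : ↥U1 => A x y) (m - 1) := by
    intro h1
    apply hcol
    have h2 : Dicol (fun x y : ↥(U1ᶜ) => A x y) n := by
      refine ⟨fun v => ⟨φ v.1, hφ1 v.1 v.2⟩, fun i => ?_⟩
      refine (hφ2 i.1).comap Subtype.val (fun x hx => ⟨x.2, congrArg Fin.val hx⟩)
        (fun x _ y _ hxy => hxy)
    have h3 := combine h2 h1
    have h4 : m + n - 1 = n + (m - 1) := by omega
    rw [h4]
    exact h3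
  obtain ⟨U, hU⟩ := (Set.toFinite {U : Set V | Hyp (fun x y : ↥U => A x y) m ∧
    ¬ Dicol (fun x y : ↥U => A x y) (m - 1)}).exists_minimal ⟨U1, hU1, hU1col⟩
  have hmin : ∀ U' : Set V, U' ⊂ U → Dicol (fun x y : ↥U' => A x y) (m - 1) := by
    intro U' hU'
    by_contra hcon
    have h1 : Hyp (fun x y : ↥U' => A x y) m :=
      Hyp.comap hU.prop.1 (fun x => ⟨x.1, hU'.1 x.2⟩)
        (fun x y hxy => Subtype.ext (congrArg (fun z : ↥U => z.1) hxy)) (fun x y hxy => hxy)
    exact hU'.2 (hU.le_of_le ⟨h1, hcon⟩ hU'.1)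
  refine ⟨U, hU.prop.1, hU.prop.2, hmin, ?_⟩
  intro v
  have hd : Dicol (fun x y : ↥(U \ {v.1}) => A x y) (m - 1) := by
    refine hmin _ ⟨Set.diff_subset, fun hsub => ?_⟩
    exact (hsub v.2).2 rfl
  constructor
  · by_contra hcon
    push Not at hcon
    exact hU.prop.2 (extend v.2 (fun u => A v.1 u)
      (fun T hT hs => hT.insert_sink (hloop _) hs) hcon hd)
  · by_contra hcon
    push Not at hcon
    exact hU.prop.2 (extend v.2 (fun u => A u v.1)
      (fun T hT hs => hT.insert_source (hloop _) hs) hcon hd)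

/-- The statement of the question for one value of `Δ`. -/
def Q1At (Δ : ℕ) : Prop :=
  ∀ (V : Type) [Fintype V] (A : V → V → Prop), (∀ v, ¬ A v v) → Hyp A Δ →
    (∃ v, {u | A v u}.ncard = Δ) → Dicol A (Δ - 1)

theorem pad_loop {W : Type*} {B : W → W → Prop} {m : ℕ} (h : ∀ v, ¬ B v v) :
    ∀ v, ¬ pad B m v v := by
  rintro (v | _ | v)
  · exact h v
  · simp [pad]
  · simp [pad]

theorem Q1At.le {m : ℕ} (hm : 9 ≤ m) (h : Q1At m) {W : Type} [Fintype W] {B : W → W → Prop}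
    (hloop : ∀ v, ¬ B v v) (hB : Hyp B m) : Dicol B (m - 1) := by
  obtain ⟨h1, h2⟩ := pad_hyp hm hB
  exact (h (W ⊕ Option (Fin m)) (pad B m) (pad_loop hloop) h1 h2).comap Sum.inl
    (fun x y hxy => hxy)

theorem Q1At.mono {m Δ : ℕ} (hm : 9 ≤ m) (hmΔ : m ≤ Δ) (h : Q1At m) : Q1At Δ := by
  classical
  intro V _ A hloop hA _
  by_contra hcol
  obtain ⟨U, hU, hUcol, -, -⟩ := critical hm hmΔ hloop hA hcol
  exact hUcol (h.le hm (fun v => hloop v.1) hU)

end BKR
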