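import Pool.Agent.BKR.King
import Pool.Agent.BKR.Crit

/-! The reduction for the weakened statements with biclique number at most `Δ - g`. -/

set_option linter.unusedSectionVars false
set_option linter.unusedVariables false

namespace BKR

open Finset

universe u

/-- The weakened statement for one value of `Δ`. -/
def GapAt (g Δ : ℕ) : Prop :=
  ∀ (V : Type u) [Fintype V] (A : V → V → Prop), (∀ v, ¬ A v v) →
    (∀ v, {u | A v u}.ncard ≤ Δ) → (∀ K : Finset V, IsBiclique A K → K.card + g ≤ Δ) →
    Dicol A (Δ - 1)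

theorem dicol_one {V : Type*} {A : V → V → Prop} {S : Set V} (h : AcyclicOn A S) :
    Dicol (fun x y : ↥S => A x y) 1 := by
  refine ⟨fun _ => 0, fun i => ?_⟩
  exact h.comap Subtype.val (fun x _ => x.2) (fun x _ y _ hxy => hxy)

theorem gap_step {g Δ : ℕ} (hΔ : 5 * g + 3 ≤ Δ) (h : GapAt.{u} g Δ) : GapAt.{u} g (Δ + 1) := by
  classical
  intro V _ A hloop hout hK
  obtain ⟨S, hS, hmax, hSK⟩ := king (A := A) (Δ := Δ + 1) (w := Δ + 1 - g) hloop
    (fun v => Or.inl (hout v)) (fun K hKb => by have := hK K hKb; omega) (by omega) (by omega)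
  have h1 : Dicol (fun x y : ↥((S : Set V)ᶜ) => A x y) (Δ - 1) := by
    refine h ↥((S : Set V)ᶜ) (fun x y => A x y) (fun v => hloop v.1) ?_ ?_
    · intro v
      have hv : v.1 ∉ S := fun h => v.2 (mem_coe.2 h)
      obtain ⟨u, hu, hvu⟩ := (hmax v.1 hv).1
      have h2 : (Subtype.val '' {u : ↥((S : Set V)ᶜ) | A v u}) ⊂ {u | A v.1 u} := by
        refine ⟨?_, fun hsub => ?_⟩
        · rintro _ ⟨x, hx, rfl⟩
          exact hx
        · obtain ⟨x, hx, hxu⟩ := hsub hvu
          apply x.2
          rw [hxu]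
          exact mem_coe.2 hu
      have h3 := Set.ncard_lt_ncard h2 (Set.toFinite _)
      rw [Set.ncard_image_of_injective _ Subtype.val_injective] at h3
      have h4 := hout v.1
      omega
    · intro K hKb
      have h5 := hSK (K.image Subtype.val) (by
        intro x hx y hy hxy
        obtain ⟨x', hx', rfl⟩ := mem_image.1 hx
        obtain ⟨y', hy', rfl⟩ := mem_image.1 hy
        exact hKb x' hx' y' hy' (fun h => hxy (by rw [h]))) (by
        intro x hx
        obtain ⟨x', hx', rfl⟩ := mem_image.1 hx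
        exact fun h => x'.2 (mem_coe.2 h))
      rw [card_image_of_injective _ Subtype.val_injective] at h5
      omega
  have h2 : Dicol (fun x y : ↥((S : Set V)ᶜᶜ) => A x y) 1 := by
    rw [compl_compl]
    exact dicol_one hS
  have h3 := combine h2 h1
  have h4 : Δ + 1 - 1 = 1 + (Δ - 1) := by omega
  rw [h4]
  exact h3

theorem gap_mono {g m Δ : ℕ} (hm : 5 * g + 3 ≤ m) (hmΔ : m ≤ Δ) (h : GapAt.{u} g m) :
    GapAt.{u} g Δ := by
  induction Δ, hmΔ using Nat.le_induction with
  | base => exact h
  | succ n hn ih => exact gap_step (by omega) ih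

end BKR
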