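import Pool.Agent.BKR.Crit

/-! The iterated structure theorem under the condition that every vertex has out-degree or
in-degree at most `Δ`. -/

set_option linter.unusedSectionVars false
set_option linter.unusedVariables false

namespace BKR

open Finset

theorem iterate_min {V : Type*} [Fintype V] [DecidableEq V] {m : ℕ} (hm : 9 ≤ m) :
    ∀ (n : ℕ) (A : V → V → Prop), (∀ v, ¬ A v v) →
    (∀ v, {u | A v u}.ncard ≤ m + n ∨ {u | A u v}.ncard ≤ m + n) →
    (∀ K : Finset V, IsBiclique A K → K.card ≤ m + n - 1) → ¬ ContainsH A (m + n) →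
    ∃ (U : Set V) (φ : V → ℕ), (∀ v ∉ U, φ v < n) ∧
      (∀ i, AcyclicOn A {v | v ∉ U ∧ φ v = i}) ∧
      (∀ v ∈ U, ∀ i < n, (∃ u, u ∉ U ∧ φ u = i ∧ A v u) ∧ (∃ u, u ∉ U ∧ φ u = i ∧ A u v)) ∧
      (∀ K : Finset V, IsBiclique A K → (∀ x ∈ K, x ∈ U) → K.card ≤ m - 1) ∧
      ¬ ContainsH (fun x y : ↥U => A x y) m := by
  intro n
  induction n with
  | zero =>
    intro A hloop hdeg hω hH
    refine ⟨Set.univ, fun _ => 0, fun v hv => absurd (Set.mem_univ v) hv, ?_, ?_, ?_, ?_⟩
    · intro i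
      have : {v : V | v ∉ (Set.univ : Set V) ∧ 0 = i} = ∅ := by
        ext v
        simp
      rw [this]
      exact acyclicOn_empty A
    · intro v _ i hi
      exact absurd hi (Nat.not_lt_zero i)
    · intro K hK _
      simpa using hω K hK
    · rintro ⟨a, b, c, K, hab, hbc, hca, haK, hbK, hcK, hK, hKb, g1, g2, g3, hy⟩
      have inj := (Subtype.val_injective : Function.Injective
        (Subtype.val : ↥(Set.univ : Set V) → V))
      refine hH ⟨a, b, c, K.image Subtype.val, inj.ne hab, inj.ne hbc, inj.ne hca,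
        ?_, ?_, ?_, ?_, ?_, g1, g2, g3, ?_⟩
      · intro h
        obtain ⟨x, hx, hx'⟩ := mem_image.1 h
        exact haK (inj hx' ▸ hx)
      · intro h
        obtain ⟨x, hx, hx'⟩ := mem_image.1 h
        exact hbK (inj hx' ▸ hx)
      · intro h
        obtain ⟨x, hx, hx'⟩ := mem_image.1 h
        exact hcK (inj hx' ▸ hx)
      · rw [card_image_of_injective _ inj, hK]
        simp
      · intro x hx y hy hxy
        obtain ⟨x', hx', rfl⟩ := mem_image.1 hx
        obtain ⟨y', hy', rfl⟩ := mem_image.1 hy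
        exact hKb x' hx' y' hy' (fun h => hxy (by rw [h]))
      · intro y hyK
        obtain ⟨y', hy', rfl⟩ := mem_image.1 hyK
        exact hy y' hy'
  | succ n ih =>
    intro A hloop hdeg hω hH
    obtain ⟨S, hS, hmax, hSω, hSH⟩ :=
      structure_step (A := A) (Δ := m + (n + 1)) (by omega) hloop hdeg hω hH
    classical
    have hdrop : ∀ v, ({u | v ∉ S ∧ u ∉ S ∧ A v u}.ncard ≤ m + n ∨
        {u | u ∉ S ∧ v ∉ S ∧ A u v}.ncard ≤ m + n) := by
      intro v
      by_cases hv : v ∈ S
      · left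
        have : {u | v ∉ S ∧ u ∉ S ∧ A v u} = ∅ := by
          ext u
          simp [hv]
        rw [this]
        simp
      · obtain ⟨⟨a, ha, hva⟩, b, hb, hbv⟩ := hmax v hv
        rcases hdeg v with h | h
        · left
          have h1 : {u | v ∉ S ∧ u ∉ S ∧ A v u} ⊂ {u | A v u} := by
            refine ⟨fun w hw => hw.2.2, fun hsub => ?_⟩
            exact (hsub hva).2.1 ha
          have h2 := Set.ncard_lt_ncard h1 (Set.toFinite _)
          omega
        · right
          have h1 : {u | u ∉ S ∧ v ∉ S ∧ A u v} ⊂ {u | A u v} := by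
            refine ⟨fun w hw => hw.2.2, fun hsub => ?_⟩
            exact (hsub hbv).1 hb
          have h2 := Set.ncard_lt_ncard h1 (Set.toFinite _)
          omega
    obtain ⟨U, φ, hφ1, hφ2, hφ3, hUω, hUH⟩ := ih (fun x y => x ∉ S ∧ y ∉ S ∧ A x y)
      (fun v hv => hloop v hv.2.2) hdrop
      (by
        intro K hK
        by_cases hK1 : K.card ≤ 1
        · omega
        · push Not at hK1
          have := hSω K (fun u hu v hv huv => (hK u hu v hv huv).2.2) (by
            intro x hx
            obtain ⟨y, hy, hxy⟩ := exists_mem_ne (s := K) hK1 x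
            exact (hK x hx y hy (Ne.symm hxy)).1)
          omega)
      (by
        have h1 : m + (n + 1) - 1 = m + n := by omega
        rw [h1] at hSH
        exact hSH)
    refine ⟨U \ (S : Set V), fun v => if v ∈ S then n else φ v, ?_, ?_, ?_, ?_, ?_⟩
    · intro v hv
      by_cases hvS : v ∈ S
      · simp [hvS]
      · simp only [hvS, if_false]
        have : v ∉ U := fun hvU => hv ⟨hvU, fun h => hvS (mem_coe.1 h)⟩
        exact Nat.lt_succ_of_lt (hφ1 v this)
    · intro i
      by_cases hi : i = n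
      · refine hS.mono ?_
        rintro v ⟨hv1, hv2⟩
        by_contra hvS
        have hvS' : v ∉ S := fun h => hvS (mem_coe.2 h)
        simp only [hvS', if_false] at hv2
        have : v ∉ U := fun hvU => hv1 ⟨hvU, hvS⟩
        have := hφ1 v this
        omega
      · have hcl : ∀ v ∈ {v | v ∉ U \ (S : Set V) ∧ (if v ∈ S then n else φ v) = i},
            v ∉ S ∧ v ∉ U ∧ φ v = i := by
          rintro v ⟨hv1, hv2⟩
          have hvS : v ∉ S := by
            intro h
            simp only [h, if_true] at hv2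
            exact hi hv2.symm
          simp only [hvS, if_false] at hv2
          exact ⟨hvS, fun hvU => hv1 ⟨hvU, fun h => hvS (mem_coe.1 h)⟩, hv2⟩
        refine (hφ2 i).comap id (fun v hv => ?_) (fun x hx y hy hxy => ?_)
        · exact (hcl v hv).2
        · exact ⟨(hcl x hx).1, (hcl y hy).1, hxy⟩
    · rintro v ⟨hvU, hvS⟩ i hi
      have hvS' : v ∉ S := fun h => hvS (mem_coe.2 h)
      by_cases hin : i = n
      · subst hin
        obtain ⟨⟨a, ha, hva⟩, b, hb, hbv⟩ := hmax v hvS'
        refine ⟨⟨a, fun h => h.2 (mem_coe.2 ha), ?_, hva⟩,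
          ⟨b, fun h => h.2 (mem_coe.2 hb), ?_, hbv⟩⟩
        · simp [ha]
        · simp [hb]
      · obtain ⟨⟨a, ha, hai, hva⟩, b, hb, hbi, hbv⟩ := hφ3 v hvU i (by omega)
        refine ⟨⟨a, fun h => ha h.1, ?_, hva.2.2⟩, ⟨b, fun h => hb h.1, ?_, hbv.2.2⟩⟩
        · simp [hva.2.1, hai]
        · simp [hbv.1, hbi]
    · intro K hK hKU
      refine hUω K (fun x hx y hy hxy => ⟨?_, ?_, hK x hx y hy hxy⟩) (fun x hx => (hKU x hx).1)
      · exact fun h => (hKU x hx).2 (mem_coe.2 h)
      · exact fun h => (hKU y hy).2 (mem_coe.2 h)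
    · rintro ⟨a, b, c, K, hab, hbc, hca, haK, hbK, hcK, hK, hKb, g1, g2, g3, hy⟩
      have hval : ∀ x : ↥(U \ (S : Set V)), x.1 ∉ S := fun x h => x.2.2 (mem_coe.2 h)
      let f : ↥(U \ (S : Set V)) → ↥U := fun x => ⟨x.1, x.2.1⟩
      have inj : Function.Injective f := by
        intro x y hxy
        exact Subtype.ext (congrArg (fun z : ↥U => z.1) hxy)
      refine hUH ⟨f a, f b, f c, K.image f, inj.ne hab, inj.ne hbc, inj.ne hca,
        ?_, ?_, ?_, ?_, ?_, ⟨hval a, hval b, g1⟩, ⟨hval b, hval c, g2⟩, ⟨hval c, hval a, g3⟩, ?_⟩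
      · intro h
        obtain ⟨x, hx, hx'⟩ := mem_image.1 h
        exact haK (inj hx' ▸ hx)
      · intro h
        obtain ⟨x, hx, hx'⟩ := mem_image.1 h
        exact hbK (inj hx' ▸ hx)
      · intro h
        obtain ⟨x, hx, hx'⟩ := mem_image.1 h
        exact hcK (inj hx' ▸ hx)
      · rw [card_image_of_injective _ inj, hK]
      · intro x hx y hy hxy
        obtain ⟨x', hx', rfl⟩ := mem_image.1 hx
        obtain ⟨y', hy', rfl⟩ := mem_image.1 hy
        exact ⟨hval x', hval y', hKb x' hx' y' hy' (fun h => hxy (by rw [h]))⟩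
      · intro y hyK
        obtain ⟨y', hy', rfl⟩ := mem_image.1 hyK
        obtain ⟨⟨q1, q2⟩, ⟨q3, q4⟩, q5, q6⟩ := hy y' hy'
        exact ⟨⟨⟨hval a, hval y', q1⟩, hval y', hval a, q2⟩,
          ⟨⟨hval b, hval y', q3⟩, hval y', hval b, q4⟩,
          ⟨hval c, hval y', q5⟩, hval y', hval c, q6⟩

/-- A vertex with neighbours of all `n` outside colours has `n` fewer neighbours inside. -/
theorem count_drop {V : Type*} [Fintype V] {n : ℕ} {U : Set V} {φ : V → ℕ} (N : V → Prop)
    (h : ∀ i < n, ∃ u, u ∉ U ∧ φ u = i ∧ N u) :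
    {u : ↥U | N u}.ncard + n ≤ {u | N u}.ncard := by
  classical
  have h' : ∀ i : Fin n, ∃ u, u ∉ U ∧ φ u = i.1 ∧ N u := fun i => h i.1 i.2
  choose g hg1 hg2 hg3 using h'
  have hinj : Function.Injective g := by
    intro i j hij
    apply Fin.ext
    rw [← hg2 i, ← hg2 j, hij]
  have h1 : (g '' Set.univ).ncard = n := by
    rw [Set.ncard_image_of_injective _ hinj]
    simp
  have h2 : (Subtype.val '' {u : ↥U | N u}).ncard = {u : ↥U | N u}.ncard :=
    Set.ncard_image_of_injective _ Subtype.val_injective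
  have hdis : Disjoint (Subtype.val '' {u : ↥U | N u}) (g '' Set.univ) := by
    rw [Set.disjoint_left]
    rintro _ ⟨x, _, rfl⟩ ⟨i, _, hi⟩
    exact hg1 i (hi ▸ x.2)
  have h3 := Set.ncard_union_eq hdis (Set.toFinite _) (Set.toFinite _)
  rw [h1, h2] at h3
  rw [← h3]
  refine Set.ncard_le_ncard ?_ (Set.toFinite _)
  rintro x (⟨y, hy, rfl⟩ | ⟨i, _, rfl⟩)
  · exact hy
  · exact hg3 i

end BKR
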