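import Pool.Agent.BKR.Main

/-! An acyclic set meeting all maximum bicliques when `5 ω ≥ 4 (Δ + 1)`. -/

set_option linter.unusedSectionVars false
set_option linter.unusedVariables false

namespace BKR

open Finset

variable {V : Type*} [Fintype V] [DecidableEq V] {A : V → V → Prop} {Δ w : ℕ}

theorem hajnal (hout : ∀ v, {u | A v u}.ncard ≤ Δ ∨ {u | A u v}.ncard ≤ Δ)
    (hω : ∀ K : Finset V, IsBiclique A K → K.card ≤ w) (h3 : 2 * (Δ + 1) < 3 * w)
    {F : Finset (Finset V)} (hF : ∀ X ∈ F, IsBiclique A X ∧ X.card = w)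
    (hcl : ∀ X ∈ F, ∀ Y ∈ F, (X ∩ Y).Nonempty) :
    ∀ C : Finset (Finset V), C ⊆ F → C.Nonempty → (C.biUnion id).card ≤ Δ + 1 ∧
      2 * w ≤ (core A (C.biUnion id)).card + (C.biUnion id).card := by
  classical
  intro C hCF hC
  induction hC using Finset.Nonempty.cons_induction with
  | singleton X =>
    have hX := hF X (hCF (mem_singleton_self X))
    have hW : ({X} : Finset (Finset V)).biUnion id = X := by simp
    rw [hW, core_eq_of_biclique hX.1]
    refine ⟨?_, by omega⟩
    obtain ⟨v, hv⟩ : X.Nonempty := card_pos.1 (by omega)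
    rw [← core_eq_of_biclique hX.1] at hv
    exact (card_le_card (subset_nbhd hv)).trans (nbhd_card hout v)
  | cons X C hXC hC ih =>
    have hCF' : C ⊆ F := fun Y hY => hCF (mem_cons_of_mem hY)
    obtain ⟨ih1, ih2⟩ := ih hCF'
    have hXF : X ∈ F := hCF (mem_cons_self X C)
    have hX := hF X hXF
    set U := C.biUnion id with hU
    have hW : (cons X C hXC).biUnion id = U ∪ X := by
      rw [cons_eq_insert, biUnion_insert, union_comm]
      rfl
    rw [hW]
    -- the biclique `core U ∪ (X ∩ U)`
    have hb : IsBiclique A (core A U ∪ (X ∩ U)) := by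
      intro x hx y hy hxy
      rcases mem_union.1 hx with hx | hx
      · have hyU : y ∈ U := by
          rcases mem_union.1 hy with hy | hy
          · exact core_subset hy
          · exact (mem_inter.1 hy).2
        exact ((mem_core.1 hx).2 y hyU (Ne.symm hxy)).1
      · rcases mem_union.1 hy with hy | hy
        · exact ((mem_core.1 hy).2 x (mem_inter.1 hx).2 hxy).2
        · exact hX.1 x (mem_inter.1 hx).1 y (mem_inter.1 hy).1 hxy
    have e1 := hω _ hb
    have e2 := card_union_add_card_inter (core A U) (X ∩ U)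
    have e3 : core A U ∩ (X ∩ U) ⊆ core A (U ∪ X) := by
      intro v hv
      rw [mem_inter, mem_inter] at hv
      refine core_inter (mem_inter.2 ⟨hv.1, ?_⟩)
      rw [core_eq_of_biclique hX.1]
      exact hv.2.1
    have e4 := card_le_card e3
    have e5 := card_union_add_card_inter U X
    rw [inter_comm U X] at e5
    -- the intersection with a member
    obtain ⟨Y, hY⟩ := hC
    have hYF := hCF' hY
    have hYc := hF Y hYF
    have e6 : X ∩ Y ⊆ X ∩ U := inter_subset_inter_left (subset_biUnion_of_mem id hY)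
    have e7 := card_le_card e6
    have e8 : (X ∪ Y).card ≤ Δ + 1 := by
      obtain ⟨v, hv⟩ := hcl X hXF Y hYF
      rw [mem_inter] at hv
      refine union_card hout (v := v) ?_ ?_
      · rw [core_eq_of_biclique hX.1]; exact hv.1
      · rw [core_eq_of_biclique hYc.1]; exact hv.2
    have e9 := card_union_add_card_inter X Y
    have hXw := hX.2
    have hYw := hYc.2
    obtain ⟨v, hv⟩ : (core A (U ∪ X)).Nonempty := card_pos.1 (by omega)
    refine ⟨(card_le_card (subset_nbhd hv)).trans (nbhd_card hout v), by omega⟩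

/-- All maximum bicliques are met by an acyclic set. -/
theorem king_hit (hloop : ∀ v, ¬ A v v)
    (hout : ∀ v, {u | A v u}.ncard ≤ Δ ∨ {u | A u v}.ncard ≤ Δ)
    (hω : ∀ K : Finset V, IsBiclique A K → K.card ≤ w) (hw : w ≤ Δ)
    (h5 : 4 * (Δ + 1) ≤ 5 * w) :
    ∃ T : Finset V, AcyclicOn A (T : Set V) ∧
      ∀ X : Finset V, IsBiclique A X → X.card = w → (T ∩ X).Nonempty := by
  classical
  have hF : ∀ X, X ∈ (univ : Finset (Finset V)).filter (fun X => IsBiclique A X ∧ X.card = w) ↔
      IsBiclique A X ∧ X.card = w := by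
    intro X; simp
  have hc : ∀ X ∈ (univ : Finset (Finset V)).filter (fun X => IsBiclique A X ∧ X.card = w),
      core A X = X := fun X hX => core_eq_of_biclique ((hF X).1 hX).1
  obtain ⟨d, hd⟩ : ∃ d, Δ + 1 = w + d := Nat.exists_eq_add_of_le (by omega)
  have hint : ∀ X Y : Finset V, IsBiclique A X → X.card = w → IsBiclique A Y → Y.card = w →
      (X ∩ Y).Nonempty → w ≤ (X ∩ Y).card + d := by
    intro X Y hX hXc hY hYc hXY
    obtain ⟨v, hv⟩ := hXY
    rw [mem_inter] at hv
    have h1 : (X ∪ Y).card ≤ Δ + 1 := by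
      refine union_card hout (v := v) ?_ ?_
      · rw [core_eq_of_biclique hX]; exact hv.1
      · rw [core_eq_of_biclique hY]; exact hv.2
    have h2 := card_union_add_card_inter X Y
    omega
  obtain ⟨T, hT1, hT2⟩ := general_hit (A := A) (Δ := Δ) (b := 2 * d) (by omega) hloop hout
    ((univ : Finset (Finset V)).filter (fun X => IsBiclique A X ∧ X.card = w))
    (by
      intro X hX
      rw [hc X hX]
      have := ((hF X).1 hX).2
      exact card_pos.1 (by omega))
    (by
      intro X hX Y hY Z hZ hXY hXZ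
      rw [hc X hX, hc Y hY] at hXY
      rw [hc X hX, hc Z hZ] at hXZ
      rw [hc Y hY, hc Z hZ]
      have hX' := (hF X).1 hX
      have hY' := (hF Y).1 hY
      have hZ' := (hF Z).1 hZ
      have h1 := hint X Y hX'.1 hX'.2 hY'.1 hY'.2 hXY
      have h2 := hint X Z hX'.1 hX'.2 hZ'.1 hZ'.2 hXZ
      have h4 : ((X ∩ Y) ∪ (X ∩ Z)).card ≤ X.card :=
        card_le_card (union_subset inter_subset_left inter_subset_left)
      have h6 := card_union_add_card_inter (X ∩ Y) (X ∩ Z)
      obtain ⟨v, hv⟩ : ((X ∩ Y) ∩ (X ∩ Z)).Nonempty := card_pos.1 (by omega)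
      simp only [mem_inter] at hv
      exact ⟨v, mem_inter.2 ⟨hv.1.2, hv.2.2⟩⟩)
    (by
      intro X hX W hXW v hv
      rw [hc X hX]
      have hX' := (hF X).1 hX
      by_contra hvX
      have hd' := (mem_core.1 hv).2
      have hne : ∀ u ∈ X, u ≠ v := fun u hu h => hvX (h ▸ hu)
      have hb : IsBiclique A (insert v X) := by
        intro x hx y hy hxy
        rcases mem_insert.1 hx with hx' | hx'
        · rcases mem_insert.1 hy with hy' | hy'
          · exact absurd (hx'.trans hy'.symm) hxy
          · rw [hx']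
            exact (hd' y (hXW hy') (hne y hy')).1
        · rcases mem_insert.1 hy with hy' | hy'
          · rw [hy']
            exact (hd' x (hXW hx') (hne x hx')).2
          · exact hX'.1 x hx' y hy' hxy
      have := hω _ hb
      rw [card_insert_of_notMem hvX] at this
      omega)
    (by
      intro C hC hne hcl
      obtain ⟨h1, h2⟩ := hajnal (F := C) hout hω (by omega) (fun X hX => (hF X).1 (hC hX))
        (by
          intro X hX Y hY
          have := hcl X hX Y hY
          rwa [hc X (hC hX), hc Y (hC hY)] at this) C (Subset.refl _) hne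
      obtain ⟨X, hX⟩ := hne
      have h6 : w ≤ (C.biUnion id).card := by
        rw [← ((hF X).1 (hC hX)).2]
        exact card_le_card (subset_biUnion_of_mem id hX)
      obtain ⟨j, hj⟩ := Nat.exists_eq_add_of_le h6
      have h7 : w ≤ (core A (C.biUnion id)).card + j := by omega
      have h8 : 2 * d - (Δ + 1 - (C.biUnion id).card) = d + j := by omega
      rw [h8]
      have h9 : 4 * d ≤ w := by omega
      have h10 : j ≤ d := by omega
      obtain ⟨r, hr⟩ := Nat.exists_eq_add_of_le h10
      have h11 : 3 * d + r ≤ (core A (C.biUnion id)).card := by omega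
      calc 2 * d * (2 * d) ≤ (3 * d + r) * (d + j) := by nlinarith
        _ ≤ _ := Nat.mul_le_mul_right _ h11)
    (by
      intro X hX Y hY x hxX hxY
      refine ⟨x, mem_inter.2 ⟨?_, hxY⟩⟩
      rw [hc X hX]
      exact hxX)
  exact ⟨T, hT1, fun X hX hXc => hT2 X ((hF X).2 ⟨hX, hXc⟩)⟩

/-- The same with a maximal acyclic set. -/
theorem king (hloop : ∀ v, ¬ A v v)
    (hout : ∀ v, {u | A v u}.ncard ≤ Δ ∨ {u | A u v}.ncard ≤ Δ)
    (hω : ∀ K : Finset V, IsBiclique A K → K.card ≤ w) (hw : w ≤ Δ)
    (h5 : 4 * (Δ + 1) ≤ 5 * w) :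
    ∃ S : Finset V, AcyclicOn A (S : Set V) ∧
      (∀ v ∉ S, (∃ u ∈ S, A v u) ∧ (∃ u ∈ S, A u v)) ∧
      ∀ K : Finset V, IsBiclique A K → (∀ x ∈ K, x ∉ S) → K.card < w := by
  classical
  obtain ⟨T, hT1, hT2⟩ := king_hit hloop hout hω hw h5
  obtain ⟨S, hTS, hS, hmax⟩ := exists_maximal hloop hT1
  refine ⟨S, hS, hmax, ?_⟩
  intro K hK hKS
  by_contra hcon
  push Not at hcon
  obtain ⟨v, hv⟩ := hT2 K hK (le_antisymm (hω K hK) hcon)
  rw [mem_inter] at hv
  exact hKS v hv.2 (hTS hv.1)

end BKR
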