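import Pool.Agent.BKR.Comp

/-! The reduction: hitting set, maximal acyclic set, iteration and padding. -/

set_option linter.unusedSectionVars false
set_option linter.unusedVariables false

namespace BKR

open Finset

/-- All out-degrees at most `Δ`, bicliques have at most `Δ - 1` vertices, no `H_Δ`. -/
def Hyp {V : Type*} (A : V → V → Prop) (Δ : ℕ) : Prop :=
  (∀ v, {u | A v u}.ncard ≤ Δ) ∧ (∀ K : Finset V, IsBiclique A K → K.card ≤ Δ - 1) ∧
    ¬ ContainsH A Δ

/-- There is a dicolouring with `k` colours. -/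
def Dicol {V : Type*} (A : V → V → Prop) (k : ℕ) : Prop :=
  ∃ φ : V → Fin k, ∀ i, AcyclicOn A {v | φ v = i}

section hit

variable {V : Type*} [Fintype V] [DecidableEq V] {A : V → V → Prop} {Δ : ℕ}

/-- The general hitting lemma: families of vertex sets whose cores meet transitively. -/
theorem general_hit {b : ℕ} (hb : 1 ≤ b) (hloop : ∀ v, ¬ A v v)
    (hout : ∀ v, {u | A v u}.ncard ≤ Δ ∨ {u | A u v}.ncard ≤ Δ) (F : Finset (Finset V))
    (hself0 : ∀ X ∈ F, (core A X).Nonempty)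
    (htri : ∀ X ∈ F, ∀ Y ∈ F, ∀ Z ∈ F, (core A X ∩ core A Y).Nonempty →
      (core A X ∩ core A Z).Nonempty → (core A Y ∩ core A Z).Nonempty)
    (hmem0 : ∀ X ∈ F, ∀ W : Finset V, X ⊆ W → ∀ v ∈ core A W, v ∈ core A X)
    (hbound0 : ∀ C : Finset (Finset V), C ⊆ F → C.Nonempty →
      (∀ X ∈ C, ∀ Y ∈ C, (core A X ∩ core A Y).Nonempty) →
      b * b ≤ (core A (C.biUnion id)).card * (b - (Δ + 1 - (C.biUnion id).card)))
    (hfar : ∀ X ∈ F, ∀ Y ∈ F, ∀ x ∈ X, x ∈ core A Y → (core A X ∩ core A Y).Nonempty) :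
    ∃ T : Finset V, AcyclicOn A (T : Set V) ∧ ∀ X ∈ F, (T ∩ X).Nonempty := by
  classical
  obtain ⟨N, hN⟩ : ∃ N : V → V → Prop, ∀ v,
      ((∀ u, N v u ↔ A v u) ∧ {u | A v u}.ncard ≤ Δ) ∨
      ((∀ u, N v u ↔ A u v) ∧ {u | A u v}.ncard ≤ Δ) := by
    refine ⟨fun v u => if {u | A v u}.ncard ≤ Δ then A v u else A u v, fun v => ?_⟩
    by_cases hv : {u | A v u}.ncard ≤ Δ
    · exact Or.inl ⟨fun u => by simp [hv], hv⟩
    · exact Or.inr ⟨fun u => by simp [hv], (hout v).resolve_left hv⟩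
  have hNcard : ∀ v, (insert v (univ.filter (fun u => N v u))).card ≤ Δ + 1 := by
    intro v
    refine (card_insert_le _ _).trans (Nat.succ_le_succ ?_)
    rcases hN v with ⟨hv, h⟩ | ⟨hv, h⟩
    · rw [Set.ncard_eq_toFinset_card'] at h
      refine le_trans (card_le_card ?_) h
      intro u hu
      simp only [mem_filter, mem_univ, true_and, hv] at hu
      simpa using hu
    · rw [Set.ncard_eq_toFinset_card'] at h
      refine le_trans (card_le_card ?_) h
      intro u hu
      simp only [mem_filter, mem_univ, true_and, hv] at hu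
      simpa using hu
  have hNsub : ∀ v, nbhd A v ⊆ insert v (univ.filter (fun u => N v u)) := by
    intro v u hu
    rw [mem_insert, mem_filter]
    rcases mem_nbhd.1 hu with h | h
    · exact Or.inl h
    · refine Or.inr ⟨mem_univ _, ?_⟩
      rcases hN v with ⟨hv, -⟩ | ⟨hv, -⟩
      · exact (hv u).2 h.1
      · exact (hv u).2 h.2
  have hins : ∀ (v : V) (T : Set V), AcyclicOn A T → (∀ u ∈ T, ¬ N v u) →
      AcyclicOn A (insert v T) := by
    intro v T hT hNT
    rcases hN v with ⟨hv, -⟩ | ⟨hv, -⟩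
    · exact hT.insert_sink (hloop v) (fun u hu h => hNT u hu ((hv u).2 h))
    · exact hT.insert_source (hloop v) (fun u hu h => hNT u hu ((hv u).2 h))
  set comp : Finset V → Finset (Finset V) := fun X =>
    F.filter (fun Y => (core A X ∩ core A Y).Nonempty) with hcomp
  set I : Finset (Finset (Finset V)) := F.image comp with hI
  have hmc : ∀ X Y, Y ∈ comp X ↔ Y ∈ F ∧ (core A X ∩ core A Y).Nonempty := by
    intro X Y
    rw [hcomp, mem_filter]
  have hself : ∀ X ∈ F, X ∈ comp X := by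
    intro X hX
    refine (hmc X X).2 ⟨hX, ?_⟩
    rw [inter_self]
    exact hself0 X hX
  have hmem : ∀ C ∈ I, ∀ X ∈ C, X ∈ F := by
    intro C hC X hX
    obtain ⟨X0, _, rfl⟩ := mem_image.1 hC
    exact ((hmc X0 X).1 hX).1
  have heq : ∀ C ∈ I, ∀ X ∈ C, C = comp X := by
    intro C hC X hX
    obtain ⟨X0, hX0, rfl⟩ := mem_image.1 hC
    have h1 := (hmc X0 X).1 hX
    ext Y
    rw [hmc, hmc]
    constructor
    · rintro ⟨hY, hY'⟩
      exact ⟨hY, htri X0 hX0 X h1.1 Y hY h1.2 hY'⟩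
    · rintro ⟨hY, hY'⟩
      have h2 := h1.2
      rw [inter_comm] at h2
      exact ⟨hY, htri X h1.1 X0 hX0 Y hY h2 hY'⟩
  have hne : ∀ C ∈ I, C.Nonempty := by
    intro C hC
    obtain ⟨X0, hX0, rfl⟩ := mem_image.1 hC
    exact ⟨X0, hself X0 hX0⟩
  have hcl : ∀ C ∈ I, ∀ X ∈ C, ∀ Y ∈ C, (core A X ∩ core A Y).Nonempty := by
    intro C hC X hX Y hY
    rw [heq C hC X hX] at hY
    exact ((hmc X Y).1 hY).2
  have hsep : ∀ C ∈ I, ∀ C' ∈ I, C ≠ C' → ∀ X ∈ C, ∀ Y ∈ C', ¬ (core A X ∩ core A Y).Nonempty := by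
    intro C hC C' hC' hCC' X hX Y hY hXY
    apply hCC'
    have h1 : Y ∈ comp X := (hmc X Y).2 ⟨hmem C' hC' Y hY, hXY⟩
    rw [← heq C hC X hX] at h1
    rw [heq C hC Y h1, ← heq C' hC' Y hY]
  set P : Finset (Finset V) → Finset V := fun C => core A (C.biUnion id) with hPdef
  have hPmem : ∀ C ∈ I, ∀ X ∈ C, ∀ v ∈ P C, v ∈ core A X := by
    intro C hC X hX v hv
    exact hmem0 X (hmem C hC X hX) _ (subset_biUnion_of_mem id hX) v hv
  have hbound : ∀ C ∈ I, b * b ≤ (P C).card * (b - (Δ + 1 - (C.biUnion id).card)) := by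
    intro C hC
    exact hbound0 C (fun X hX => hmem C hC X hX) (hne C hC) (hcl C hC)
  have hclaim : ∀ C ∈ I, ∀ C' ∈ I, C ≠ C' → ∀ x ∈ C.biUnion id, x ∉ P C' := by
    intro C hC C' hC' hCC' x hx hx'
    obtain ⟨X, hX, hxX⟩ := mem_biUnion.1 hx
    obtain ⟨Y, hY⟩ := hne C' hC'
    have hxY := hPmem C' hC' Y hY x hx'
    exact hsep C hC C' hC' hCC' X hX Y hY
      (hfar X (hmem C hC X hX) Y (hmem C' hC' Y hY) x hxX hxY)
  obtain ⟨T, hT1, hT2⟩ := exists_acyclic_transversal (A := A) (N := N) hins (P := P)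
    (k := fun C => Δ + 1 - (C.biUnion id).card) hb I
    (by
      intro C hC C' hC' hCC'
      rw [Finset.disjoint_left]
      intro v hv hv'
      obtain ⟨X, hX⟩ := hne C hC
      obtain ⟨Y, hY⟩ := hne C' hC'
      exact hsep C hC C' hC' hCC' X hX Y hY
        ⟨v, mem_inter.2 ⟨hPmem C hC X hX v hv, hPmem C' hC' Y hY v hv'⟩⟩)
    (by
      intro C hC v hv
      have h1 : C.biUnion id ⊆ insert v (univ.filter (fun u => N v u)) :=
        (subset_nbhd hv).trans (hNsub v)
      refine le_trans (card_le_card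
        (t := insert v (univ.filter (fun u => N v u)) \ C.biUnion id) ?_) ?_
      · intro u hu
        rw [mem_filter, mem_biUnion] at hu
        obtain ⟨⟨C', hC', huC'⟩, hvu⟩ := hu
        refine mem_sdiff.2 ⟨mem_insert_of_mem (mem_filter.2 ⟨mem_univ _, hvu⟩), fun hu' => ?_⟩
        exact hclaim C hC C' (mem_of_mem_erase hC') (Ne.symm (ne_of_mem_erase hC')) u hu' huC'
      · rw [card_sdiff_of_subset h1]
        have h4 := hNcard v
        omega)
    hbound
  refine ⟨T, hT1, ?_⟩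
  intro X hXF
  have hCI : comp X ∈ I := mem_image_of_mem comp hXF
  obtain ⟨v, hv⟩ := hT2 (comp X) hCI
  rw [mem_inter] at hv
  exact ⟨v, mem_inter.2 ⟨hv.1, core_subset (hPmem (comp X) hCI X (hself X hXF) v hv.2)⟩⟩

theorem exists_hitting (hΔ : 10 ≤ Δ) (hloop : ∀ v, ¬ A v v)
    (hout : ∀ v, {u | A v u}.ncard ≤ Δ ∨ {u | A u v}.ncard ≤ Δ)
    (hω : ∀ K : Finset V, IsBiclique A K → K.card ≤ Δ - 1) (hH : ¬ ContainsH A Δ) :
    ∃ T : Finset V, AcyclicOn A (T : Set V) ∧ ∀ X, Fam A Δ X → (T ∩ X).Nonempty := by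
  classical
  have hF : ∀ X, X ∈ (univ : Finset (Finset V)).filter (fun X => Fam A Δ X) ↔ Fam A Δ X := by
    intro X; simp
  have hnum : ∀ X ∈ (univ : Finset (Finset V)).filter (fun X => Fam A Δ X), Num A Δ X :=
    fun X hX => Fam.num hΔ hω ((hF X).1 hX)
  obtain ⟨T, hT1, hT2⟩ := general_hit (A := A) (Δ := Δ) (b := 4) (by norm_num) hloop hout
    ((univ : Finset (Finset V)).filter (fun X => Fam A Δ X))
    (by
      intro X hX
      have := (hnum X hX).big
      exact card_pos.1 (by omega))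
    (by
      intro X hX Y hY Z hZ hXY hXZ
      obtain ⟨v, -, hv1, hv2⟩ := tri hΔ hout (hnum X hX) (hnum Y hY) (hnum Z hZ) hXY hXZ
      exact ⟨v, mem_inter.2 ⟨hv1, hv2⟩⟩)
    (by
      intro X hX W hXW v hv
      exact core_mem hΔ hω hH ((hF X).1 hX) hXW hv)
    (by
      intro C hC hne hcl
      exact (comp_bound hΔ hout hne (fun X hX => hnum X (hC hX)) hcl).2)
    (by
      intro X hX Y hY x hxX hxY
      have h1 : core A X ∪ core A Y ⊆ nbhd A x :=
        union_subset (core_subset_nbhd hxX) (core_subset.trans (subset_nbhd hxY))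
      have h2 := (card_le_card h1).trans (nbhd_card hout x)
      have h3 := card_union_add_card_inter (core A X) (core A Y)
      have h4 := (hnum X hX).big
      have h5 := (hnum Y hY).big
      exact card_pos.1 (by omega))
  exact ⟨T, hT1, fun X hX => hT2 X ((hF X).2 hX)⟩

theorem exists_maximal (hloop : ∀ v, ¬ A v v) {T : Finset V} (hT : AcyclicOn A (T : Set V)) :
    ∃ S : Finset V, T ⊆ S ∧ AcyclicOn A (S : Set V) ∧
      ∀ v ∉ S, (∃ u ∈ S, A v u) ∧ (∃ u ∈ S, A u v) := by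
  classical
  obtain ⟨S, hS, hmax⟩ := exists_max_image
    ((univ : Finset (Finset V)).filter (fun S => T ⊆ S ∧ AcyclicOn A (S : Set V))) card
    ⟨T, mem_filter.2 ⟨mem_univ _, Subset.refl _, hT⟩⟩
  rw [mem_filter] at hS
  refine ⟨S, hS.2.1, hS.2.2, ?_⟩
  intro v hv
  have key : ¬ AcyclicOn A (insert v (S : Set V)) := by
    intro h1
    rw [← coe_insert] at h1
    have h2 := hmax (insert v S) (mem_filter.2 ⟨mem_univ _, hS.2.1.trans (subset_insert _ _), h1⟩)
    rw [card_insert_of_notMem hv] at h2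
    omega
  constructor
  · by_contra hcon
    push Not at hcon
    exact key (hS.2.2.insert_sink (hloop v) (fun u hu => hcon u (mem_coe.1 hu)))
  · by_contra hcon
    push Not at hcon
    exact key (hS.2.2.insert_source (hloop v) (fun u hu => hcon u (mem_coe.1 hu)))

/-- Structure theorem. -/
theorem structure_step (hΔ : 10 ≤ Δ) (hloop : ∀ v, ¬ A v v)
    (hdeg : ∀ v, {u | A v u}.ncard ≤ Δ ∨ {u | A u v}.ncard ≤ Δ)
    (hω : ∀ K : Finset V, IsBiclique A K → K.card ≤ Δ - 1) (hH : ¬ ContainsH A Δ) :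
    ∃ S : Finset V, AcyclicOn A (S : Set V) ∧
      (∀ v ∉ S, (∃ u ∈ S, A v u) ∧ (∃ u ∈ S, A u v)) ∧
      (∀ K : Finset V, IsBiclique A K → (∀ x ∈ K, x ∉ S) → K.card ≤ Δ - 2) ∧
      ¬ ContainsH (fun x y => x ∉ S ∧ y ∉ S ∧ A x y) (Δ - 1) := by
  classical
  obtain ⟨T, hT1, hT2⟩ := exists_hitting hΔ hloop hdeg hω hH
  obtain ⟨S, hTS, hS, hmax⟩ := exists_maximal hloop hT1
  have hhit : ∀ X, Fam A Δ X → ∃ x ∈ X, x ∈ S := by
    intro X hX
    obtain ⟨v, hv⟩ := hT2 X hX
    rw [mem_inter] at hv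
    exact ⟨v, hv.2, hTS hv.1⟩
  refine ⟨S, hS, hmax, ?_, ?_⟩
  · intro K hK hKS
    by_contra hcon
    push Not at hcon
    obtain ⟨K', hK', hcard⟩ := exists_subset_card_eq (s := K) (n := Δ - 1) (by omega)
    obtain ⟨x, hx, hxS⟩ := hhit K' (Or.inl
      ⟨fun u hu v hv huv => hK u (hK' hu) v (hK' hv) huv, hcard⟩)
    exact hKS x (hK' hx) hxS
  · rintro ⟨a, b, c, K, hab, hbc, hca, haK, hbK, hcK, hK, hKb, h1, h2, h3, hy⟩
    obtain ⟨x, hx, hxS⟩ := hhit (({a, b, c} : Finset V) ∪ K) (Or.inr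
      ⟨a, b, c, K, hab, hbc, hca, haK, hbK, hcK, hK,
        fun u hu v hv huv => (hKb u hu v hv huv).2.2, h1.2.2, h2.2.2, h3.2.2,
        fun y hyK => ⟨⟨(hy y hyK).1.1.2.2, (hy y hyK).1.2.2.2⟩,
          ⟨(hy y hyK).2.1.1.2.2, (hy y hyK).2.1.2.2.2⟩,
          ⟨(hy y hyK).2.2.1.2.2, (hy y hyK).2.2.2.2.2⟩⟩, rfl⟩)
    rcases mem_union.1 hx with hx | hx
    · simp only [mem_insert, mem_singleton] at hx
      rcases hx with rfl | rfl | rfl
      · exact h1.1 hxS
      · exact h2.1 hxS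
      · exact h3.1 hxS
    · exact (hy x hx).1.2.1 hxS

/-- Structure theorem, version with out-degrees. -/
theorem structure_out (hΔ : 10 ≤ Δ) (hloop : ∀ v, ¬ A v v) (h : Hyp A Δ) :
    ∃ S : Finset V, AcyclicOn A (S : Set V) ∧
      Hyp (fun x y => x ∉ S ∧ y ∉ S ∧ A x y) (Δ - 1) := by
  classical
  obtain ⟨S, hS, hmax, hω, hH⟩ := structure_step hΔ hloop (fun v => Or.inl (h.1 v)) h.2.1 h.2.2
  refine ⟨S, hS, ?_, ?_, hH⟩
  · intro v
    change {u | v ∉ S ∧ u ∉ S ∧ A v u}.ncard ≤ Δ - 1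
    by_cases hv : v ∈ S
    · have : {u | v ∉ S ∧ u ∉ S ∧ A v u} = ∅ := by
        ext u
        simp [hv]
      rw [this]
      simp
    · obtain ⟨u, hu, hvu⟩ := (hmax v hv).1
      have h1 : {u | v ∉ S ∧ u ∉ S ∧ A v u} ⊂ {u | A v u} := by
        refine ⟨fun w hw => hw.2.2, fun hsub => ?_⟩
        exact (hsub hvu).2.1 hu
      have h2 := Set.ncard_lt_ncard h1 (Set.toFinite _)
      have h3 := h.1 v
      omega
  · intro K hK
    by_cases hK1 : K.card ≤ 1
    · omega
    · push Not at hK1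
      have := hω K (fun u hu v hv huv => (hK u hu v hv huv).2.2) (by
        intro x hx
        obtain ⟨y, hy, hxy⟩ := exists_mem_ne (s := K) hK1 x
        exact (hK x hx y hy (Ne.symm hxy)).1)
      omega

end hit

/-- The hypotheses pass to subdigraphs. -/
theorem Hyp.comap {V W : Type*} [Fintype V] {A : V → V → Prop} {B : W → W → Prop} {m : ℕ}
    (h : Hyp A m) (f : W → V) (hf : Function.Injective f)
    (hAB : ∀ x y, B x y → A (f x) (f y)) : Hyp B m := by
  classical
  obtain ⟨h1, h2, h3⟩ := h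
  refine ⟨?_, ?_, ?_⟩
  · intro v
    rw [← Set.ncard_image_of_injective _ hf]
    refine (Set.ncard_le_ncard ?_ (Set.toFinite _)).trans (h1 (f v))
    rintro _ ⟨u, hu, rfl⟩
    exact hAB v u hu
  · intro K hK
    have := h2 (K.image f) (by
      intro x hx y hy hxy
      obtain ⟨x', hx', rfl⟩ := mem_image.1 hx
      obtain ⟨y', hy', rfl⟩ := mem_image.1 hy
      exact hAB _ _ (hK x' hx' y' hy' (fun h => hxy (by rw [h]))))
    rwa [card_image_of_injective _ hf] at this
  · rintro ⟨a, b, c, K, hab, hbc, hca, haK, hbK, hcK, hK, hKb, g1, g2, g3, hy⟩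
    refine h3 ⟨f a, f b, f c, K.image f, hf.ne hab, hf.ne hbc, hf.ne hca, ?_, ?_, ?_, ?_, ?_,
      hAB _ _ g1, hAB _ _ g2, hAB _ _ g3, ?_⟩
    · intro h
      obtain ⟨x, hx, hx'⟩ := mem_image.1 h
      exact haK (hf hx' ▸ hx)
    · intro h
      obtain ⟨x, hx, hx'⟩ := mem_image.1 h
      exact hbK (hf hx' ▸ hx)
    · intro h
      obtain ⟨x, hx, hx'⟩ := mem_image.1 h
      exact hcK (hf hx' ▸ hx)
    · rw [card_image_of_injective _ hf, hK]
    · intro x hx y hy hxy
      obtain ⟨x', hx', rfl⟩ := mem_image.1 hx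
      obtain ⟨y', hy', rfl⟩ := mem_image.1 hy
      exact hAB _ _ (hKb x' hx' y' hy' (fun h => hxy (by rw [h])))
    · intro y hyK
      obtain ⟨y', hy', rfl⟩ := mem_image.1 hyK
      obtain ⟨⟨q1, q2⟩, ⟨q3, q4⟩, q5, q6⟩ := hy y' hy'
      exact ⟨⟨hAB _ _ q1, hAB _ _ q2⟩, ⟨hAB _ _ q3, hAB _ _ q4⟩, hAB _ _ q5, hAB _ _ q6⟩

theorem AcyclicOn.comap {V W : Type*} {A : V → V → Prop} {B : W → W → Prop} {S : Set V}
    {R : Set W} (h : AcyclicOn A S) (f : W → V) (hfS : ∀ x ∈ R, f x ∈ S)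
    (hAB : ∀ x ∈ R, ∀ y ∈ R, B x y → A (f x) (f y)) : AcyclicOn B R := by
  intro v hv
  exact h (f v) (Relation.TransGen.lift f
    (fun a b hab => ⟨hfS a hab.1, hfS b hab.2.1, hAB a hab.1 b hab.2.1 hab.2.2⟩) _ _ hv)

theorem acyclicOn_image {V : Type*} {A : V → V → Prop} {U : Set V} {R : Set ↥U}
    (h : AcyclicOn (fun x y : ↥U => A x y) R) : AcyclicOn A (Subtype.val '' R) := by
  intro v hv
  have hU : ∀ x, x ∈ (Subtype.val '' R : Set V) → ∃ hx : x ∈ U, (⟨x, hx⟩ : ↥U) ∈ R := by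
    rintro _ ⟨x, hx, rfl⟩
    exact ⟨x.2, hx⟩
  have key : ∀ x y, Relation.TransGen
      (fun x y => x ∈ Subtype.val '' R ∧ y ∈ Subtype.val '' R ∧ A x y) x y →
      ∀ (hx : x ∈ U) (hy : y ∈ U),
      Relation.TransGen (fun x y : ↥U => x ∈ R ∧ y ∈ R ∧ A x y) ⟨x, hx⟩ ⟨y, hy⟩ := by
    intro x y hxy
    induction hxy with
    | single h1 =>
      intro hx hy
      exact Relation.TransGen.single ⟨(hU _ h1.1).2, (hU _ h1.2.1).2, h1.2.2⟩
    | tail h1 h2 ih =>
      intro hx hy
      exact Relation.TransGen.tail (ih hx (hU _ h2.1).1) ⟨(hU _ h2.1).2, (hU _ h2.2.1).2, h2.2.2⟩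
  obtain ⟨b, hb, _⟩ := Relation.TransGen.head'_iff.1 hv
  exact h ⟨v, (hU _ hb.1).1⟩ (key v v hv _ _)

/-- Iterated structure theorem. -/
theorem iterate {V : Type*} [Fintype V] [DecidableEq V] {m : ℕ} (hm : 9 ≤ m) :
    ∀ (n : ℕ) (A : V → V → Prop), (∀ v, ¬ A v v) → Hyp A (m + n) →
    ∃ (U : Set V) (φ : V → ℕ), (∀ v ∉ U, φ v < n) ∧
      (∀ i, AcyclicOn A {v | v ∉ U ∧ φ v = i}) ∧
      Hyp (fun x y : ↥U => A x y) m := by
  intro n
  induction n with
  | zero =>
    intro A hloop h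
    refine ⟨Set.univ, fun _ => 0, fun v hv => absurd (Set.mem_univ v) hv, ?_, ?_⟩
    · intro i
      have : {v : V | v ∉ (Set.univ : Set V) ∧ 0 = i} = ∅ := by
        ext v
        simp
      rw [this]
      exact acyclicOn_empty A
    · exact Hyp.comap (A := A) (by simpa using h) Subtype.val Subtype.val_injective
        (fun x y hxy => hxy)
  | succ n ih =>
    intro A hloop h
    obtain ⟨S, hS, hyp⟩ := structure_out (A := A) (Δ := m + (n + 1)) (by omega) hloop h
    have h1 : m + (n + 1) - 1 = m + n := by omega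
    rw [h1] at hyp
    obtain ⟨U, φ, hφ1, hφ2, hU⟩ := ih (fun x y => x ∉ S ∧ y ∉ S ∧ A x y)
      (fun v hv => hloop v hv.2.2) hyp
    classical
    refine ⟨U \ (S : Set V), fun v => if v ∈ S then n else φ v, ?_, ?_, ?_⟩
    · intro v hv
      by_cases hvS : v ∈ S
      · simp [hvS]
      · simp only [hvS, if_false]
        have : v ∉ U := fun hvU => hv ⟨hvU, fun h => hvS (mem_coe.1 h)⟩
        exact Nat.lt_succ_of_lt (hφ1 v this)
    · intro i
      by_cases hi : i = n
      · refine hS.mono ?_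
        rintro v ⟨hv1, hv2⟩
        by_contra hvS
        have hvS' : v ∉ S := fun h => hvS (mem_coe.2 h)
        simp only [hvS', if_false] at hv2
        have : v ∉ U := fun hvU => hv1 ⟨hvU, hvS⟩
        have := hφ1 v this
        omega
      · have hcl : ∀ v ∈ {v | v ∉ U \ (S : Set V) ∧ (if v ∈ S then n else φ v) = i},
            v ∉ S ∧ v ∉ U ∧ φ v = i := by
          rintro v ⟨hv1, hv2⟩
          have hvS : v ∉ S := by
            intro h
            simp only [h, if_true] at hv2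
            exact hi hv2.symm
          simp only [hvS, if_false] at hv2
          exact ⟨hvS, fun hvU => hv1 ⟨hvU, fun h => hvS (mem_coe.1 h)⟩, hv2⟩
        refine (hφ2 i).comap id (fun v hv => ?_) (fun x hx y hy hxy => ?_)
        · exact (hcl v hv).2
        · exact ⟨(hcl x hx).1, (hcl y hy).1, hxy⟩
    · refine Hyp.comap hU (fun x => ⟨x.1, x.2.1⟩) ?_ ?_
      · intro x y hxy
        exact Subtype.ext (congrArg (fun z : ↥U => z.1) hxy)
      · intro x y hxy
        exact ⟨fun h => x.2.2 (mem_coe.2 h), fun h => y.2.2 (mem_coe.2 h), hxy⟩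

/-- The digraph with a disjoint out-star with `m` leaves. -/
def pad {W : Type*} (B : W → W → Prop) (m : ℕ) :
    (W ⊕ Option (Fin m)) → (W ⊕ Option (Fin m)) → Prop
  | Sum.inl x, Sum.inl y => B x y
  | Sum.inr none, Sum.inr (some _) => True
  | _, _ => False

theorem pad_inl {W : Type*} {B : W → W → Prop} {m : ℕ} {x y : W ⊕ Option (Fin m)}
    {z : W ⊕ Option (Fin m)} (h1 : pad B m x y) (h2 : pad B m z x) : ∃ w, x = Sum.inl w := by
  rcases x with x | _ | x
  · exact ⟨x, rfl⟩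
  · rcases z with z | _ | z <;> exact absurd h2 (by simp [pad])
  · rcases y with y | _ | y <;> exact absurd h1 (by simp [pad])

theorem pad_hyp {W : Type*} [Fintype W] {B : W → W → Prop} {m : ℕ} (hm : 9 ≤ m)
    (h : Hyp B m) : Hyp (pad B m) m ∧ ∃ v, {u | pad B m v u}.ncard = m := by
  classical
  obtain ⟨h1, h2, h3⟩ := h
  refine ⟨⟨?_, ?_, ?_⟩, Sum.inr none, ?_⟩
  · rintro (v | _ | v)
    · have : {u | pad B m (Sum.inl v) u} = Sum.inl '' {u | B v u} := by
        ext u
        rcases u with u | _ | u <;> simp [pad]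
      rw [this, Set.ncard_image_of_injective _ Sum.inl_injective]
      exact h1 v
    · have : {u | pad B m (Sum.inr none) u} ⊆ (fun i : Fin m => Sum.inr (some i)) '' Set.univ := by
        intro u hu
        rcases u with u | _ | u
        · exact absurd hu (by simp [pad])
        · exact absurd hu (by simp [pad])
        · exact ⟨u, Set.mem_univ _, rfl⟩
      refine (Set.ncard_le_ncard this (Set.toFinite _)).trans ?_
      refine (Set.ncard_image_le (Set.toFinite _)).trans ?_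
      simp
    · have : {u | pad B m (Sum.inr (some v)) u} = ∅ := by
        ext u
        rcases u with u | _ | u <;> simp [pad]
      rw [this]
      simp
  · intro K hK
    by_cases hK1 : K.card ≤ 1
    · omega
    · push Not at hK1
      have hin : ∀ x ∈ K, ∃ w, x = Sum.inl w := by
        intro x hx
        obtain ⟨y, hy, hxy⟩ := exists_mem_ne (s := K) hK1 x
        exact pad_inl (hK x hx y hy (Ne.symm hxy)) (hK y hy x hx hxy)
      have hK' : K = (univ.filter (fun w : W => Sum.inl w ∈ K)).image Sum.inl := by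
        ext x
        constructor
        · intro hx
          obtain ⟨w, rfl⟩ := hin x hx
          exact mem_image.2 ⟨w, by simp [hx], rfl⟩
        · intro hx
          obtain ⟨w, hw, rfl⟩ := mem_image.1 hx
          exact (mem_filter.1 hw).2
      rw [hK', card_image_of_injective _ Sum.inl_injective]
      refine h2 _ ?_
      intro x hx y hy hxy
      exact hK _ (mem_filter.1 hx).2 _ (mem_filter.1 hy).2 (fun h => hxy (Sum.inl_injective h))
  · rintro ⟨a, b, c, K, hab, hbc, hca, haK, hbK, hcK, hK, hKb, g1, g2, g3, hy⟩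
    obtain ⟨a, rfl⟩ := pad_inl g1 g3
    obtain ⟨b, rfl⟩ := pad_inl g2 g1
    obtain ⟨c, rfl⟩ := pad_inl g3 g2
    have hin : ∀ x ∈ K, ∃ w, x = Sum.inl w := by
      intro x hx
      exact pad_inl (hy x hx).1.2 (hy x hx).1.1
    have hK' : K = (univ.filter (fun w : W => Sum.inl w ∈ K)).image Sum.inl := by
      ext x
      constructor
      · intro hx
        obtain ⟨w, rfl⟩ := hin x hx
        exact mem_image.2 ⟨w, by simp [hx], rfl⟩
      · intro hx
        obtain ⟨w, hw, rfl⟩ := mem_image.1 hx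
        exact (mem_filter.1 hw).2
    refine h3 ⟨a, b, c, univ.filter (fun w : W => Sum.inl w ∈ K), ?_, ?_, ?_, ?_, ?_, ?_, ?_, ?_,
      g1, g2, g3, ?_⟩
    · exact fun h => hab (by rw [h])
    · exact fun h => hbc (by rw [h])
    · exact fun h => hca (by rw [h])
    · simpa using haK
    · simpa using hbK
    · simpa using hcK
    · rw [← hK]
      conv_rhs => rw [hK']
      rw [card_image_of_injective _ Sum.inl_injective]
    · intro x hx y hy hxy
      exact hKb _ (mem_filter.1 hx).2 _ (mem_filter.1 hy).2 (fun h => hxy (Sum.inl_injective h))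
    · intro y hyK
      exact hy _ (mem_filter.1 hyK).2
  · have : {u | pad B m (Sum.inr none) u} =
        (fun i : Fin m => (Sum.inr (some i) : W ⊕ Option (Fin m))) '' Set.univ := by
      ext u
      rcases u with u | _ | u <;> simp [pad]
    rw [this, Set.ncard_image_of_injective]
    · simp
    · intro i j hij
      simpa using hij

/-- Colourings of a set and of its complement combine. -/
theorem combine {V : Type*} {A : V → V → Prop} {U : Set V} {a b : ℕ}
    (h1 : Dicol (fun x y : ↥(Uᶜ) => A x y) a) (h2 : Dicol (fun x y : ↥U => A x y) b) :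
    Dicol A (a + b) := by
  classical
  obtain ⟨φ, hφ⟩ := h1
  obtain ⟨ψ, hψ⟩ := h2
  refine ⟨fun v => if h : v ∈ U then ⟨a + (ψ ⟨v, h⟩).1, by have := (ψ ⟨v, h⟩).2; omega⟩
    else ⟨(φ ⟨v, h⟩).1, by have := (φ ⟨v, h⟩).2; omega⟩, ?_⟩
  intro i
  by_cases hi : i.1 < a
  · refine (acyclicOn_image (hφ ⟨i.1, hi⟩)).mono ?_
    intro v hv
    rw [Set.mem_ofPred_eq] at hv
    beta_reduce at hv
    by_cases hvU : v ∈ U
    · rw [dif_pos hvU] at hv
      have := congrArg Fin.val hv
      simp only at this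
      omega
    · rw [dif_neg hvU] at hv
      have := congrArg Fin.val hv
      exact ⟨⟨v, hvU⟩, Fin.ext this, rfl⟩
  · have hib : i.1 - a < b := by have := i.2; omega
    refine (acyclicOn_image (hψ ⟨i.1 - a, hib⟩)).mono ?_
    intro v hv
    rw [Set.mem_ofPred_eq] at hv
    beta_reduce at hv
    by_cases hvU : v ∈ U
    · rw [dif_pos hvU] at hv
      have := congrArg Fin.val hv
      simp only at this
      refine ⟨⟨v, hvU⟩, Fin.ext ?_, rfl⟩
      simp only
      omega
    · rw [dif_neg hvU] at hv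
      have := congrArg Fin.val hv
      simp only at this
      have := (φ ⟨v, hvU⟩).2
      omega

end BKR
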