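import Mathlib

/-! Acyclic transversals in digraphs with few out-arcs between the parts. -/

namespace BKR

open Finset

/-- The subdigraph induced by `S` has no directed cycle. -/
def AcyclicOn {V : Type*} (A : V → V → Prop) (S : Set V) : Prop :=
  ∀ v, ¬ Relation.TransGen (fun x y => x ∈ S ∧ y ∈ S ∧ A x y) v v

theorem AcyclicOn.mono {V : Type*} {A : V → V → Prop} {S T : Set V} (h : AcyclicOn A T)
    (hST : S ⊆ T) : AcyclicOn A S := by
  intro v hv
  exact h v (Relation.TransGen.mono (fun x y hxy => ⟨hST hxy.1, hST hxy.2.1, hxy.2.2⟩) _ _ hv)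

theorem acyclicOn_empty {V : Type*} (A : V → V → Prop) : AcyclicOn A (∅ : Set V) := by
  intro v hv
  obtain ⟨b, hb, _⟩ := Relation.TransGen.head'_iff.1 hv
  exact hb.1

/-- Adding a sink to an acyclic set keeps it acyclic. -/
theorem AcyclicOn.insert_sink {V : Type*} {A : V → V → Prop} {S : Set V} {v : V}
    (h : AcyclicOn A S) (hv : ¬ A v v) (hs : ∀ u ∈ S, ¬ A v u) : AcyclicOn A (insert v S) := by
  intro w hw
  have hsrc : ∀ x y, (x ∈ insert v S ∧ y ∈ insert v S ∧ A x y) → x ∈ S := by
    rintro x y ⟨hx, hy, hxy⟩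
    rcases hx with rfl | hx
    · rcases hy with rfl | hy
      · exact absurd hxy hv
      · exact absurd hxy (hs y hy)
    · exact hx
  have hsrc' : ∀ x y, Relation.TransGen (fun x y => x ∈ insert v S ∧ y ∈ insert v S ∧ A x y) x y →
      x ∈ S := by
    intro x y hxy
    obtain ⟨b, hb, _⟩ := Relation.TransGen.head'_iff.1 hxy
    exact hsrc x b hb
  have hwS : w ∈ S := hsrc' w w hw
  have key : ∀ x, Relation.TransGen (fun x y => x ∈ insert v S ∧ y ∈ insert v S ∧ A x y) x w →
      Relation.TransGen (fun x y => x ∈ S ∧ y ∈ S ∧ A x y) x w := by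
    intro x hx
    induction hx using Relation.TransGen.head_induction_on with
    | single h1 => exact Relation.TransGen.single ⟨hsrc _ _ h1, hwS, h1.2.2⟩
    | head h1 h2 ih => exact Relation.TransGen.head ⟨hsrc _ _ h1, hsrc' _ _ h2, h1.2.2⟩ ih
  exact h w (key w hw)

theorem AcyclicOn.flip {V : Type*} {A : V → V → Prop} {S : Set V} (h : AcyclicOn A S) :
    AcyclicOn (fun x y => A y x) S := by
  intro v hv
  refine h v ?_
  have h1 := Relation.transGen_swap.2 hv
  exact Relation.TransGen.mono (fun x y hxy => ⟨hxy.2.1, hxy.1, hxy.2.2⟩) _ _ h1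

/-- Adding a source to an acyclic set keeps it acyclic. -/
theorem AcyclicOn.insert_source {V : Type*} {A : V → V → Prop} {S : Set V} {v : V}
    (h : AcyclicOn A S) (hv : ¬ A v v) (hs : ∀ u ∈ S, ¬ A u v) : AcyclicOn A (insert v S) :=
  AcyclicOn.flip (A := fun x y => A y x) (AcyclicOn.insert_sink h.flip hv hs)

set_option linter.unusedSectionVars false

variable {V ι : Type*} [Fintype V] [DecidableEq V] [DecidableEq ι]

open Classical in
/-- Acyclic transversals of the parts `P j`, `j ∈ J`. -/
noncomputable def trans (A : V → V → Prop) (P : ι → Finset V) (J : Finset ι) :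
    Finset (Finset V) :=
  (univ : Finset (Finset V)).filter (fun T => T ⊆ J.biUnion P ∧ (∀ j ∈ J, (T ∩ P j).card = 1) ∧
    AcyclicOn A (T : Set V))

theorem mem_trans {A : V → V → Prop} {P : ι → Finset V} {J : Finset ι} {T : Finset V} :
    T ∈ trans A P J ↔ T ⊆ J.biUnion P ∧ (∀ j ∈ J, (T ∩ P j).card = 1) ∧
      AcyclicOn A (T : Set V) := by
  simp [trans]

theorem trans_disj {A : V → V → Prop} {P : ι → Finset V} {J : Finset ι}
    (hP : ∀ i ∈ J, ∀ j ∈ J, i ≠ j → Disjoint (P i) (P j)) {i : ι} (hi : i ∈ J) {T : Finset V}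
    (hT : T ∈ trans A P (J.erase i)) : Disjoint T (P i) := by
  rw [Finset.disjoint_left]
  intro a ha hai
  obtain ⟨h1, -, -⟩ := mem_trans.1 hT
  obtain ⟨j, hj, haj⟩ := mem_biUnion.1 (h1 ha)
  exact Finset.disjoint_left.1 (hP j (mem_of_mem_erase hj) i hi (ne_of_mem_erase hj)) haj hai

theorem trans_erase {A : V → V → Prop} {P : ι → Finset V} {J : Finset ι}
    (hP : ∀ i ∈ J, ∀ j ∈ J, i ≠ j → Disjoint (P i) (P j)) {j : ι} (hj : j ∈ J) {T : Finset V}
    (hT : T ∈ trans A P J) {u : V} (hu : u ∈ T) (huj : u ∈ P j) :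
    T.erase u ∈ trans A P (J.erase j) := by
  obtain ⟨h1, h2, h3⟩ := mem_trans.1 hT
  have hone : T ∩ P j = {u} := by
    obtain ⟨w, hw⟩ := card_eq_one.1 (h2 j hj)
    have : u ∈ T ∩ P j := mem_inter.2 ⟨hu, huj⟩
    rw [hw, mem_singleton] at this
    rw [hw, this]
  refine mem_trans.2 ⟨?_, ?_, ?_⟩
  · intro a ha
    obtain ⟨i, hi, hai⟩ := mem_biUnion.1 (h1 (mem_of_mem_erase ha))
    refine mem_biUnion.2 ⟨i, mem_erase.2 ⟨?_, hi⟩, hai⟩
    rintro rfl
    have : a ∈ T ∩ P i := mem_inter.2 ⟨mem_of_mem_erase ha, hai⟩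
    rw [hone, mem_singleton] at this
    exact (ne_of_mem_erase ha) this
  · intro i hi
    have hij := ne_of_mem_erase hi
    have hiJ := mem_of_mem_erase hi
    have : T.erase u ∩ P i = T ∩ P i := by
      ext a
      simp only [mem_inter, mem_erase]
      constructor
      · rintro ⟨⟨-, h⟩, h'⟩
        exact ⟨h, h'⟩
      · rintro ⟨h, h'⟩
        refine ⟨⟨?_, h⟩, h'⟩
        rintro rfl
        exact Finset.disjoint_left.1 (hP i hiJ j hj hij) h' huj
    rw [this]
    exact h2 i hiJ
  · refine h3.mono ?_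
    intro a ha
    exact mem_of_mem_erase (mem_coe.1 ha)

theorem trans_insert {A N : V → V → Prop}
    (hins : ∀ (v : V) (T : Set V), AcyclicOn A T → (∀ u ∈ T, ¬ N v u) → AcyclicOn A (insert v T))
    {P : ι → Finset V} {J : Finset ι}
    (hP : ∀ i ∈ J, ∀ j ∈ J, i ≠ j → Disjoint (P i) (P j)) {i : ι} (hi : i ∈ J) {T : Finset V}
    (hT : T ∈ trans A P (J.erase i)) {v : V} (hv : v ∈ P i) (hs : ∀ u ∈ T, ¬ N v u) :
    insert v T ∈ trans A P J := by
  obtain ⟨h1, h2, h3⟩ := mem_trans.1 hT
  refine mem_trans.2 ⟨?_, ?_, ?_⟩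
  · intro a ha
    rcases mem_insert.1 ha with rfl | ha
    · exact mem_biUnion.2 ⟨i, hi, hv⟩
    · obtain ⟨j, hj, haj⟩ := mem_biUnion.1 (h1 ha)
      exact mem_biUnion.2 ⟨j, mem_of_mem_erase hj, haj⟩
  · intro j hj
    by_cases hji : j = i
    · subst hji
      have hd := trans_disj hP hi hT
      have : insert v T ∩ P j = {v} := by
        ext a
        simp only [mem_inter, mem_insert, mem_singleton]
        constructor
        · rintro ⟨rfl | h, h'⟩
          · rfl
          · exact absurd h' (Finset.disjoint_left.1 hd h)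
        · rintro rfl
          exact ⟨Or.inl rfl, hv⟩
      rw [this, card_singleton]
    · have : insert v T ∩ P j = T ∩ P j := by
        ext a
        simp only [mem_inter, mem_insert]
        constructor
        · rintro ⟨rfl | h, h'⟩
          · exact absurd h' (Finset.disjoint_left.1 (hP i hi j hj (Ne.symm hji)) hv)
          · exact ⟨h, h'⟩
        · rintro ⟨h, h'⟩
          exact ⟨Or.inr h, h'⟩
      rw [this]
      exact h2 j (mem_erase.2 ⟨hji, hj⟩)
  · rw [coe_insert]
    exact hins v _ h3 (fun u hu => hs u (mem_coe.1 hu))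

open Classical in
theorem trans_step {A N : V → V → Prop}
    (hins : ∀ (v : V) (T : Set V), AcyclicOn A T → (∀ u ∈ T, ¬ N v u) → AcyclicOn A (insert v T))
    {P : ι → Finset V} {k : ι → ℕ} {b : ℕ} (hb : 1 ≤ b) :
    ∀ (n : ℕ) (J : Finset ι), J.card = n →
    (∀ i ∈ J, ∀ j ∈ J, i ≠ j → Disjoint (P i) (P j)) →
    (∀ i ∈ J, ∀ v ∈ P i, (((J.erase i).biUnion P).filter (fun u => N v u)).card ≤ k i) →
    (∀ i ∈ J, b * b ≤ (P i).card * (b - k i)) →
    ∀ i ∈ J, b * (trans A P (J.erase i)).card ≤ (trans A P J).card := by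
  intro n
  induction n with
  | zero =>
    intro J hJ _ _ _ i hi
    rw [card_eq_zero] at hJ
    subst hJ
    simp at hi
  | succ n ih =>
    intro J hJ hP hk hPk i hi
    have hcard : (J.erase i).card = n := by rw [card_erase_of_mem hi, hJ]; rfl
    set M := trans A P (J.erase i) with hM
    have ih' : ∀ j ∈ J.erase i, b * (trans A P ((J.erase i).erase j)).card ≤ M.card := by
      refine ih (J.erase i) hcard ?_ ?_ ?_
      · intro a ha b hb hab
        exact hP a (mem_of_mem_erase ha) b (mem_of_mem_erase hb) hab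
      · intro a ha v hv
        refine le_trans (card_le_card ?_) (hk a (mem_of_mem_erase ha) v hv)
        intro u hu
        rw [mem_filter, mem_biUnion] at hu ⊢
        obtain ⟨⟨b, hb, hub⟩, h⟩ := hu
        exact ⟨⟨b, mem_erase.2 ⟨ne_of_mem_erase hb, mem_of_mem_erase (mem_of_mem_erase hb)⟩, hub⟩, h⟩
      · intro a ha
        exact hPk a (mem_of_mem_erase ha)
    -- each vertex is in at most a quarter of the transversals
    have hquarter : ∀ u ∈ (J.erase i).biUnion P, b * (M.filter (fun T => u ∈ T)).card ≤ M.card := by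
      intro u hu
      obtain ⟨j, hj, huj⟩ := mem_biUnion.1 hu
      refine le_trans (Nat.mul_le_mul_left b ?_) (ih' j hj)
      refine card_le_card_of_injOn (fun T => T.erase u) ?_ ?_
      · intro T hT
        rw [mem_coe, mem_filter] at hT
        refine mem_coe.2 (trans_erase ?_ hj hT.1 hT.2 huj)
        intro a ha b hb hab
        exact hP a (mem_of_mem_erase ha) b (mem_of_mem_erase hb) hab
      · intro T hT T' hT' he
        rw [mem_coe, mem_filter] at hT hT'
        have := congrArg (insert u) he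
        simpa [insert_erase hT.2, insert_erase hT'.2] using this
    have hgood : ∀ v ∈ P i, (b - k i) * M.card ≤ b * (M.filter (fun T => ∀ u ∈ T, ¬ N v u)).card := by
      intro v hv
      have hbad : b * (M.filter (fun T => ¬ ∀ u ∈ T, ¬ N v u)).card ≤ k i * M.card := by
        have hsub : M.filter (fun T => ¬ ∀ u ∈ T, ¬ N v u) ⊆
            (((J.erase i).biUnion P).filter (fun u => N v u)).biUnion
              (fun u => M.filter (fun T => u ∈ T)) := by
          intro T hT
          rw [mem_filter] at hT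
          obtain ⟨hT1, hT2⟩ := hT
          push Not at hT2
          obtain ⟨u, hu, hvu⟩ := hT2
          refine mem_biUnion.2 ⟨u, mem_filter.2 ⟨(mem_trans.1 hT1).1 hu, hvu⟩, mem_filter.2 ⟨hT1, hu⟩⟩
        calc b * (M.filter (fun T => ¬ ∀ u ∈ T, ¬ N v u)).card
            ≤ b * ∑ u ∈ ((J.erase i).biUnion P).filter (fun u => N v u),
                (M.filter (fun T => u ∈ T)).card :=
              Nat.mul_le_mul_left b (le_trans (card_le_card hsub) card_biUnion_le)
          _ = ∑ u ∈ ((J.erase i).biUnion P).filter (fun u => N v u),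
                b * (M.filter (fun T => u ∈ T)).card := by rw [mul_sum]
          _ ≤ ∑ u ∈ ((J.erase i).biUnion P).filter (fun u => N v u), M.card :=
              sum_le_sum (fun u hu => hquarter u (mem_filter.1 hu).1)
          _ = (((J.erase i).biUnion P).filter (fun u => N v u)).card * M.card := by
              rw [sum_const, smul_eq_mul]
          _ ≤ k i * M.card := Nat.mul_le_mul_right _ (hk i hi v hv)
      have htot := card_filter_add_card_filter_not (s := M) (fun T => ∀ u ∈ T, ¬ N v u)
      by_cases h4 : b ≤ k i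
      · have : b - k i = 0 := by omega
        rw [this]
        simp
      · push Not at h4
        have h5 : (b - k i) * M.card + k i * M.card = b * M.card := by
          rw [← add_mul]
          congr 1
          omega
        have h6 : b * (M.filter (fun T => ∀ u ∈ T, ¬ N v u)).card +
            b * (M.filter (fun T => ¬ ∀ u ∈ T, ¬ N v u)).card = b * M.card := by
          rw [← mul_add, htot]
        omega
    -- count pairs
    have hinj : ((P i).sigma (fun v => M.filter (fun T => ∀ u ∈ T, ¬ N v u))).card ≤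
        (trans A P J).card := by
      refine card_le_card_of_injOn (fun p => insert p.1 p.2) ?_ ?_
      · rintro ⟨v, T⟩ hp
        rw [mem_coe, mem_sigma, mem_filter] at hp
        exact mem_coe.2 (trans_insert hins hP hi hp.2.1 hp.1 hp.2.2)
      · rintro ⟨v, T⟩ hp ⟨w, T'⟩ hp' he
        rw [mem_coe, mem_sigma, mem_filter] at hp hp'
        have hd := trans_disj hP hi hp.2.1
        have hd' := trans_disj hP hi hp'.2.1
        simp only at hp hp' he
        have hvT : v ∉ T := fun h => Finset.disjoint_left.1 hd h hp.1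
        have hwT : w ∉ T' := fun h => Finset.disjoint_left.1 hd' h hp'.1
        have hvw : v = w := by
          have h1 : v ∈ insert w T' := by rw [← he]; exact mem_insert_self _ _
          rcases mem_insert.1 h1 with h2 | h2
          · exact h2
          · exact absurd hp.1 (Finset.disjoint_left.1 hd' h2)
        subst hvw
        have : T = T' := by
          rw [← erase_insert hvT, he, erase_insert hwT]
        subst this
        rfl
    rw [card_sigma] at hinj
    have h6 : (P i).card * ((b - k i) * M.card) ≤ b * (trans A P J).card := by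
      calc (P i).card * ((b - k i) * M.card) = ∑ v ∈ P i, (b - k i) * M.card := by
            rw [sum_const, smul_eq_mul]
        _ ≤ ∑ v ∈ P i, b * (M.filter (fun T => ∀ u ∈ T, ¬ N v u)).card := sum_le_sum hgood
        _ = b * ∑ v ∈ P i, (M.filter (fun T => ∀ u ∈ T, ¬ N v u)).card := by rw [mul_sum]
        _ ≤ b * (trans A P J).card := Nat.mul_le_mul_left b hinj
    have h7 : b * b * M.card ≤ (P i).card * ((b - k i) * M.card) := by
      rw [← mul_assoc]
      exact Nat.mul_le_mul_right _ (hPk i hi)
    have h8 : b * (b * M.card) ≤ b * (trans A P J).card := by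
      rw [← mul_assoc]
      exact h7.trans h6
    exact Nat.le_of_mul_le_mul_left h8 hb

open Classical in
/-- Acyclic transversal lemma. -/
theorem exists_acyclic_transversal {A N : V → V → Prop}
    (hins : ∀ (v : V) (T : Set V), AcyclicOn A T → (∀ u ∈ T, ¬ N v u) → AcyclicOn A (insert v T))
    {P : ι → Finset V}
    {k : ι → ℕ} {b : ℕ} (hb : 1 ≤ b) (I : Finset ι)
    (hP : ∀ i ∈ I, ∀ j ∈ I, i ≠ j → Disjoint (P i) (P j))
    (hk : ∀ i ∈ I, ∀ v ∈ P i, (((I.erase i).biUnion P).filter (fun u => N v u)).card ≤ k i)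
    (hPk : ∀ i ∈ I, b * b ≤ (P i).card * (b - k i)) :
    ∃ T : Finset V, AcyclicOn A (T : Set V) ∧ ∀ i ∈ I, (T ∩ P i).Nonempty := by
  have key : ∀ (n : ℕ) (J : Finset ι), J.card = n → J ⊆ I → 1 ≤ (trans A P J).card := by
    intro n
    induction n with
    | zero =>
      intro J hJ _
      rw [card_eq_zero] at hJ
      subst hJ
      refine card_pos.2 ⟨∅, mem_trans.2 ⟨by simp, by simp, ?_⟩⟩
      rw [coe_empty]
      exact acyclicOn_empty A
    | succ n ih =>
      intro J hJ hJI
      obtain ⟨i, hi⟩ : J.Nonempty := card_pos.1 (by omega)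
      have h1 := ih (J.erase i) (by rw [card_erase_of_mem hi, hJ]; rfl)
        ((erase_subset _ _).trans hJI)
      have h2 := trans_step (A := A) (P := P) (k := k) hins hb (n + 1) J hJ
        (fun a ha b hb => hP a (hJI ha) b (hJI hb))
        (by
          intro a ha v hv
          refine le_trans (card_le_card ?_) (hk a (hJI ha) v hv)
          intro u hu
          rw [mem_filter, mem_biUnion] at hu ⊢
          obtain ⟨⟨b, hb, hub⟩, h⟩ := hu
          exact ⟨⟨b, mem_erase.2 ⟨ne_of_mem_erase hb, hJI (mem_of_mem_erase hb)⟩, hub⟩, h⟩)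
        (fun a ha => hPk a (hJI ha)) i hi
      exact (Nat.mul_le_mul hb h1).trans h2
  obtain ⟨T, hT⟩ : (trans A P I).Nonempty := card_pos.1 (key _ I rfl (Subset.refl _))
  obtain ⟨-, h2, h3⟩ := mem_trans.1 hT
  exact ⟨T, h3, fun i hi => card_pos.1 (by rw [h2 i hi]; exact one_pos)⟩

end BKR
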